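import Mathlib
import Pool.Agent.Work.MP_e97a4d_nt.VpMain2

/-!
The affine line over a scheme, moving families of tame open subschemes, and the open subscheme `W` of
the affine line over `V` attached to a closed subscheme `V'` of `V` and a moving family of `V'`.
-/

set_option autoImplicit false

noncomputable section

namespace Pool.Agent.Work.MP_e97a4d_nt.Sep

open AlgebraicGeometry CategoryTheory CategoryTheory.Limits IsDedekindDomain NumberField
open Pool.Agent.Work.MP_e97a4d_nt.Vp

/-- The spectrum of the ring of integers. -/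
abbrev SpO (F₀ : Type) [Field F₀] : Scheme.{0} := Spec (CommRingCat.of (𝓞 F₀))

variable {F₀ : Type} [Field F₀] {V V' : Scheme.{0}}

/-- `V(ℂ)` contains no entire curve. -/
def NoCurve (σ : F₀ →+* ℂ) (π : V ⟶ SpO F₀) : Prop :=
  ∀ f : ℂ → (Spec (CommRingCat.of ℂ) ⟶ V), ¬ IsEntireCurve σ π f

/-- All the sets `V(O_S)` are finite. -/
def FinPts (π : V ⟶ SpO F₀) : Prop :=
  ∀ (F : Type) [Field F] [NumberField F] [Algebra F₀ F] (S : Finset (HeightOneSpectrum (𝓞 F))),
    (integralPoints π F S).Finite

/-- Condition `(ii_m)`: for all finite extensions `F` of `F₀` and all finite sets `S` of places, there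
are only finitely many `S`-integral points `x` of `V` such that at most `m` points of the scheme
`Spec O_S` are mapped into `V'` by `x`. -/
def CondIIm (m : ℕ) (π : V ⟶ SpO F₀) (i : V' ⟶ V) : Prop :=
  ∀ (F : Type) [Field F] [NumberField F] [Algebra F₀ F] (S : Finset (HeightOneSpectrum (𝓞 F))),
    {x ∈ integralPoints π F S |
      {p : Spec (CommRingCat.of (SInt F S)) | x p ∈ Set.range i}.encard ≤ m}.Finite

/-- The affine line over `V`. -/
abbrev AL (V : Scheme.{0}) : Scheme.{0} := AffineSpace PUnit.{1} V

/-- The projection of the affine line over `V` to `V`. -/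
abbrev pr (V : Scheme.{0}) : AL V ⟶ V := AL V ↘ V

/-- The morphism of affine lines induced by a morphism. -/
abbrev alMap (i : V' ⟶ V) : AL V' ⟶ AL V := AffineSpace.map PUnit.{1} i

/-- The point of the affine line over `V` lying over `x`, with coordinate `c`. -/
def mk {R : Type} [CommRing R] (x : Spec (CommRingCat.of R) ⟶ V) (c : R) :
    Spec (CommRingCat.of R) ⟶ AL V :=
  AffineSpace.homOfVector x (fun _ => (Scheme.ΓSpecIso (CommRingCat.of R)).inv c)

/-- The coordinate of a point of the affine line over `V`. -/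
def crd {R : Type} [CommRing R] (w : Spec (CommRingCat.of R) ⟶ AL V) : R :=
  (Scheme.ΓSpecIso (CommRingCat.of R)).hom (w.appTop (AffineSpace.coord V PUnit.unit))

/-- The open subscheme of the affine line over `V` on which the coordinate `t` and `t - 1` are
invertible. -/
def unitOpen (V : Scheme.{0}) : (AL V).Opens :=
  (AL V).basicOpen (AffineSpace.coord V PUnit.unit * (AffineSpace.coord V PUnit.unit - 1))

/-- A moving family of tame open subschemes of `X`: an open subscheme `T` of the affine line over `X`
such that (for `t`, `t - 1` invertible) `T` contains no entire curve, has only finitely many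
`S`-integral points, and such that every point `p` of `X` with values in a field lies in the member
`T_c` of the family for all but at most `d` values of `c` (characteristics dividing `N₀` excepted). -/
structure Moving {X : Scheme.{0}} (ρ : X ⟶ SpO F₀) where
  /-- the family -/
  T : (AL X).Opens
  tame1 : ∀ σ : F₀ →+* ℂ, Tame1 σ (pr X ≫ ρ) (T ⊓ unitOpen X)
  tame2 : Tame2 (pr X ≫ ρ) (T ⊓ unitOpen X)
  /-- the number of exceptions -/
  d : ℕ
  /-- the bad characteristics -/
  N₀ : ℕ
  hN₀ : N₀ ≠ 0
  bad : ∀ (k : Type) [Field k] (p : Spec (CommRingCat.of k) ⟶ X), (N₀ : k) ≠ 0 →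
    {c : k | mk p c (⊥ : PrimeSpectrum k) ∉ T}.encard ≤ d

/-- The open subscheme `W` of the affine line over `V`: the coordinate `t` and `t - 1` are invertible,
and over `V'` only the points of the family `T` are kept. -/
def Wop (i : V' ⟶ V) [IsClosedImmersion i] (T : (AL V').Opens) : (AL V).Opens :=
  unitOpen V ⊓ ⟨(alMap i '' (T : Set (AL V'))ᶜ)ᶜ, by
    have h : IsClosedImmersion (alMap i) :=
      MorphismProperty.of_isPullback (AffineSpace.isPullback_map i).flip inferInstance
    exact ((alMap i).isClosedEmbedding.isClosedMap _ T.isOpen.isClosed_compl).isOpen_compl⟩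

attribute [local instance] MvPolynomial.gradedAlgebra

/-- Projective `m`-space over the ring of integers. -/
abbrev PS (F₀ : Type) [Field F₀] (m : ℕ) : Scheme.{0} :=
  Proj (MvPolynomial.homogeneousSubmodule (Fin (m + 1)) (𝓞 F₀))

/-- The structure morphism of projective space. -/
def psStr (F₀ : Type) [Field F₀] (m : ℕ) : PS F₀ m ⟶ SpO F₀ :=
  Proj.toSpecZero _ ≫ Spec.map (CommRingCat.ofHom
    (algebraMap (𝓞 F₀) (MvPolynomial.homogeneousSubmodule (Fin (m + 1)) (𝓞 F₀) 0)))

/-- Affine `n`-space over the ring of integers. -/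
abbrev AS (F₀ : Type) [Field F₀] (n : ℕ) : Scheme.{0} := AffineSpace (Fin n) (SpO F₀)

/-- The structure morphism of affine space. -/
abbrev asStr (F₀ : Type) [Field F₀] (n : ℕ) : AS F₀ n ⟶ SpO F₀ := AS F₀ n ↘ SpO F₀

/-- `V` is quasi-projective over the ring of integers: it is separated of finite type and has a
monomorphism to the product of a projective space and an affine space. -/
structure IsQP (π : V ⟶ SpO F₀) : Prop where
  sep : IsSeparated π
  lft : LocallyOfFiniteType π
  qc : QuasiCompact π
  mono : ∃ (m n : ℕ) (φ : V ⟶ PS F₀ m) (ψ : V ⟶ AS F₀ n), φ ≫ psStr F₀ m = π ∧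
    ψ ≫ asStr F₀ n = π ∧ ∀ (Z : Scheme.{0}) (a b : Z ⟶ V), a ≫ φ = b ≫ φ → a ≫ ψ = b ≫ ψ → a = b

/-- `V` is quasi-affine of finite type over the ring of integers. -/
structure IsQA (π : V ⟶ SpO F₀) : Prop where
  imm : ∃ (n : ℕ) (ψ : V ⟶ AS F₀ n), ψ ≫ asStr F₀ n = π ∧ IsImmersion ψ

end Pool.Agent.Work.MP_e97a4d_nt.Sep
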