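import Pool.Agent.Work.MP_e97a4d_nt.Sep.PSpace

/-!
Projective space has a moving family. Let `x_0, ..., x_m` be homogeneous coordinates,
`y_i(x, t) = ∑_j x_j (t + i) ^ (j + 1)`, `i = 0, ..., m`, and
`K(x, t) = ∏_i (t + i) y_i ∏_{l ≠ i} (y_i - y_l)`, homogeneous in `x`.
On the chart `x_j ≠ 0` (times the line) let `T_j` be the basic open subset of `K(x / x_j, t)`, and
let `T` be the union of the images of the `T_j`.
`bad`: `N₀ = (m + 1)!`; `K(x, ·)` is a nonzero polynomial for `x ≠ 0` over a field in which `N₀` is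
invertible.
`tame1`: the parameter `c` is constant; the functions `u_i = y_i / y_0` are well defined (independent
of the chart), entire and omit `0` and `1`, hence are constant; they determine `x` up to scaling.
`tame2`: for every prime of `O_S` one of the charts contains the localized point and there `u_i`,
`u_i - 1` are invertible; so they are units of `O_S`, finitely many values; a point of `PS` with
values in `O_S` is determined by its generic point since `PS` is separated.
-/

set_option autoImplicit false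

noncomputable section

namespace Pool.Agent.Work.MP_e97a4d_nt.Sep

open AlgebraicGeometry CategoryTheory CategoryTheory.Limits IsDedekindDomain NumberField
open Pool.Agent.Work.MP_e97a4d_nt.Vp
open scoped Topology

attribute [local instance] MvPolynomial.gradedAlgebra

namespace MoveP

section algebra

variable {R : Type} [CommRing R] {m : ℕ}

/-- the linear forms `y_i` -/
def y (v : Fin (m + 1) → R) (t : R) (i : Fin (m + 1)) : R :=
  ∑ j : Fin (m + 1), v j * (t + ((i : ℕ) : R)) ^ ((j : ℕ) + 1)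

/-- the function `K` -/
def K (v : Fin (m + 1) → R) (t : R) : R :=
  ∏ i : Fin (m + 1), ((t + ((i : ℕ) : R)) * y v t i *
    ∏ l : Fin (m + 1), if l = i then 1 else (y v t i - y v t l))

theorem map_y {R' : Type} [CommRing R'] (φ : R →+* R') (v : Fin (m + 1) → R) (t : R)
    (i : Fin (m + 1)) : φ (y v t i) = y (fun j => φ (v j)) (φ t) i := by
  simp [y, map_sum]

theorem map_K {R' : Type} [CommRing R'] (φ : R →+* R') (v : Fin (m + 1) → R) (t : R) :
    φ (K v t) = K (fun j => φ (v j)) (φ t) := by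
  simp only [K, map_prod, map_mul, map_add, map_natCast, map_y]
  refine Finset.prod_congr rfl fun i _ => ?_
  congr 1
  refine Finset.prod_congr rfl fun l _ => ?_
  split_ifs <;> simp [map_y]

theorem y_smul (a : R) (v : Fin (m + 1) → R) (t : R) (i : Fin (m + 1)) :
    y (fun j => a * v j) t i = a * y v t i := by
  simp only [y, Finset.mul_sum]
  exact Finset.sum_congr rfl fun j _ => by ring

theorem isUnit_K {v : Fin (m + 1) → R} {t : R} (h : IsUnit (K v t)) (i : Fin (m + 1)) :
    IsUnit (t + ((i : ℕ) : R)) ∧ IsUnit (y v t i) ∧ ∀ l, l ≠ i → IsUnit (y v t i - y v t l) := by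
  have h1 := isUnit_of_dvd_unit (Finset.dvd_prod_of_mem _ (Finset.mem_univ i)) h
  have h2 := isUnit_of_mul_isUnit_left h1
  refine ⟨isUnit_of_mul_isUnit_left h2, isUnit_of_mul_isUnit_right h2, fun l hl => ?_⟩
  have h3 := isUnit_of_dvd_unit (Finset.dvd_prod_of_mem _ (Finset.mem_univ l))
    (isUnit_of_mul_isUnit_right h1)
  rwa [if_neg hl] at h3

end algebra

section roots

variable {k : Type} [Field k] {m : ℕ}

/-- the polynomial `Q = ∑ v_j X ^ (j + 1)` -/
def Q (v : Fin (m + 1) → k) : Polynomial k :=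
  ∑ j : Fin (m + 1), Polynomial.C (v j) * Polynomial.X ^ ((j : ℕ) + 1)

theorem eval_Q (v : Fin (m + 1) → k) (s : k) :
    (Q v).eval s = ∑ j : Fin (m + 1), v j * s ^ ((j : ℕ) + 1) := by
  simp [Q, Polynomial.eval_finsetSum]

theorem coeff_Q (v : Fin (m + 1) → k) (j : Fin (m + 1)) : (Q v).coeff ((j : ℕ) + 1) = v j := by
  simp only [Q, Polynomial.finsetSum_coeff, Polynomial.coeff_C_mul, Polynomial.coeff_X_pow]
  rw [Finset.sum_eq_single j]
  · simp
  · intro b _ hb
    rw [if_neg (fun h => hb (Fin.ext (by omega))), mul_zero]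
  · intro h; exact (h (Finset.mem_univ _)).elim

theorem natDegree_Q (v : Fin (m + 1) → k) : (Q v).natDegree ≤ m + 1 := by
  refine Polynomial.natDegree_sum_le_of_forall_le _ _ fun j _ => ?_
  refine (Polynomial.natDegree_C_mul_X_pow_le _ _).trans ?_
  have := j.2
  omega

theorem Q_ne_zero {v : Fin (m + 1) → k} (hv : ∃ j, v j ≠ 0) : Q v ≠ 0 := by
  obtain ⟨j, hj⟩ := hv
  intro h
  apply hj
  rw [← coeff_Q v j, h, Polynomial.coeff_zero]

theorem eq_zero_of_roots {v : Fin (m + 1) → k} (s : Fin (m + 2) → k) (hs : Function.Injective s)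
    (h : ∀ j, (Q v).eval (s j) = 0) : Q v = 0 := by
  refine Polynomial.eq_zero_of_natDegree_lt_card_of_eval_eq_zero _ hs h ?_
  rw [Fintype.card_fin]
  exact (natDegree_Q v).trans_lt (by omega)

theorem natCast_sub_ne_zero (hN : ((Nat.factorial (m + 1) : ℕ) : k) ≠ 0) {a b : ℕ} (ha : a ≤ m + 1)
    (hb : b ≤ m + 1) (h : (a : k) = (b : k)) : a = b := by
  wlog hab : a ≤ b generalizing a b
  · exact (this hb ha h.symm (by omega)).symm
  by_contra hne
  have h1 : ((b - a : ℕ) : k) = 0 := by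
    rw [Nat.cast_sub hab, h, sub_self]
  apply hN
  have h2 : (b - a) ∣ Nat.factorial (m + 1) :=
    Nat.dvd_factorial (by omega) (by omega)
  obtain ⟨c, hc⟩ := h2
  rw [hc, Nat.cast_mul, h1, zero_mul]

/-- two translates of `Q` are different -/
theorem comp_ne {v : Fin (m + 1) → k} (hv : ∃ j, v j ≠ 0)
    (hN : ((Nat.factorial (m + 1) : ℕ) : k) ≠ 0) {i l : Fin (m + 1)} (hil : l ≠ i) :
    (Q v).comp (Polynomial.X + Polynomial.C ((i : ℕ) : k)) ≠
      (Q v).comp (Polynomial.X + Polynomial.C ((l : ℕ) : k)) := by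
  intro h
  have ha : ((i : ℕ) : k) - ((l : ℕ) : k) ≠ 0 := by
    intro h1
    apply hil
    apply Fin.ext
    have hi := i.2
    have hl := l.2
    exact (natCast_sub_ne_zero hN (by omega) (by omega) (sub_eq_zero.1 h1)).symm
  set a := ((i : ℕ) : k) - ((l : ℕ) : k) with hadef
  have h2 : ∀ s : k, (Q v).eval (s + a) = (Q v).eval s := by
    intro s
    have h3 := congrArg (Polynomial.eval (s - ((l : ℕ) : k))) h
    simp only [Polynomial.eval_comp, Polynomial.eval_add, Polynomial.eval_X,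
      Polynomial.eval_C] at h3
    rw [hadef, show s + (((i : ℕ) : k) - ((l : ℕ) : k)) = s - ((l : ℕ) : k) + ((i : ℕ) : k) by ring,
      h3]
    congr 1
    ring
  have h4 : ∀ n : ℕ, (Q v).eval ((n : k) * a) = 0 := by
    intro n
    induction n with
    | zero => rw [eval_Q]; simp
    | succ n ih =>
      rw [Nat.cast_succ, add_mul, one_mul, h2, ih]
  refine Q_ne_zero hv (eq_zero_of_roots (fun j => ((j : ℕ) : k) * a) ?_ (fun j => h4 j))
  intro j j' hjj
  have h5 := mul_right_cancel₀ ha hjj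
  have hj := j.2
  have hj' := j'.2
  exact Fin.ext (natCast_sub_ne_zero hN (by omega) (by omega) h5)

theorem comp_Q (v : Fin (m + 1) → k) (i : Fin (m + 1)) :
    y (fun j => Polynomial.C (v j)) Polynomial.X i =
      (Q v).comp (Polynomial.X + Polynomial.C ((i : ℕ) : k)) := by
  simp [y, Q, Polynomial.sum_comp]

theorem Kpoly_ne_zero {v : Fin (m + 1) → k} (hv : ∃ j, v j ≠ 0)
    (hN : ((Nat.factorial (m + 1) : ℕ) : k) ≠ 0) :
    K (fun j => Polynomial.C (v j)) (Polynomial.X : Polynomial k) ≠ 0 := by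
  unfold K
  rw [Finset.prod_ne_zero_iff]
  intro i _
  refine mul_ne_zero (mul_ne_zero ?_ ?_) ?_
  · rw [← Polynomial.C_eq_natCast]
    exact Polynomial.X_add_C_ne_zero _
  · rw [comp_Q]
    intro h
    rw [Polynomial.comp_X_add_C_eq_zero_iff] at h
    exact Q_ne_zero hv h
  · rw [Finset.prod_ne_zero_iff]
    intro l _
    split_ifs with h
    · exact one_ne_zero
    · rw [comp_Q, comp_Q, sub_ne_zero]
      exact comp_ne hv hN h

theorem natDegree_y (v : Fin (m + 1) → k) (i : Fin (m + 1)) :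
    (y (fun j => Polynomial.C (v j)) (Polynomial.X : Polynomial k) i).natDegree ≤ m + 1 := by
  rw [comp_Q]
  refine Polynomial.natDegree_comp_le.trans ?_
  rw [Polynomial.natDegree_X_add_C, mul_one]
  exact natDegree_Q v

/-- the number of exceptions -/
def dd (m : ℕ) : ℕ := (m + 1) * (1 + (m + 1) + (m + 1) * (m + 1))

theorem natDegree_K (v : Fin (m + 1) → k) :
    (K (fun j => Polynomial.C (v j)) (Polynomial.X : Polynomial k)).natDegree ≤ dd m := by
  unfold K
  refine (Polynomial.natDegree_prod_le _ _).trans ?_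
  have h : ∀ i ∈ (Finset.univ : Finset (Fin (m + 1))),
      (((Polynomial.X : Polynomial k) + ((i : ℕ) : Polynomial k)) *
        y (fun j => Polynomial.C (v j)) (Polynomial.X : Polynomial k) i *
      ∏ l : Fin (m + 1), if l = i then 1 else
        (y (fun j => Polynomial.C (v j)) (Polynomial.X : Polynomial k) i -
          y (fun j => Polynomial.C (v j)) (Polynomial.X : Polynomial k) l)).natDegree ≤
        1 + (m + 1) + (m + 1) * (m + 1) := by
    intro i _
    refine Polynomial.natDegree_mul_le.trans (add_le_add ?_ ?_)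
    · refine Polynomial.natDegree_mul_le.trans (add_le_add ?_ (natDegree_y v i))
      rw [← Polynomial.C_eq_natCast, Polynomial.natDegree_X_add_C]
    · refine (Polynomial.natDegree_prod_le _ _).trans ?_
      refine (Finset.sum_le_card_nsmul _ _ (m + 1) fun l _ => ?_).trans ?_
      · split_ifs
        · simp
        · exact (Polynomial.natDegree_sub_le _ _).trans (max_le (natDegree_y v i) (natDegree_y v l))
      · simp
  refine (Finset.sum_le_card_nsmul _ _ _ h).trans ?_
  simp [dd]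

theorem encard_bad {v : Fin (m + 1) → k} (hv : ∃ j, v j ≠ 0)
    (hN : ((Nat.factorial (m + 1) : ℕ) : k) ≠ 0) : {c : k | K v c = 0}.encard ≤ dd m := by
  classical
  set P := K (fun j => Polynomial.C (v j)) (Polynomial.X : Polynomial k) with hP
  have h1 : {c : k | K v c = 0} ⊆ P.roots.toFinset := by
    intro c hc
    simp only [Finset.mem_coe, Multiset.mem_toFinset]
    rw [Polynomial.mem_roots (Kpoly_ne_zero hv hN), Polynomial.IsRoot]
    have := map_K (Polynomial.evalRingHom c) (fun j => Polynomial.C (v j)) Polynomial.X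
    simp only [Polynomial.coe_evalRingHom, Polynomial.eval_C, Polynomial.eval_X] at this
    rw [this]
    exact hc
  refine (Set.encard_le_encard h1).trans ?_
  rw [Set.encard_coe_eq_coe_finsetCard]
  exact_mod_cast (Multiset.toFinset_card_le _).trans ((Polynomial.card_roots' _).trans
    (natDegree_K v))

/-- the linear forms determine the vector -/
theorem eq_zero_of_y [CharZero k] {v : Fin (m + 1) → k} {c : k}
    (hc : ∀ i : Fin (m + 1), c + ((i : ℕ) : k) ≠ 0) (h : ∀ i, y v c i = 0) : v = 0 := by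
  have h1 : Q v = 0 := by
    refine eq_zero_of_roots (Fin.cons 0 fun i : Fin (m + 1) => c + ((i : ℕ) : k)) ?_ ?_
    · rw [Fin.cons_injective_iff]
      refine ⟨?_, ?_⟩
      · rintro ⟨i, hi⟩
        exact hc i hi
      · intro i j hij
        exact Fin.ext (Nat.cast_injective (add_left_cancel hij))
    · intro j
      refine Fin.cases ?_ (fun i => ?_) j
      · rw [eval_Q]; simp
      · rw [Fin.cons_succ, eval_Q]; exact h i
  funext j
  rw [← coeff_Q v j, h1, Polynomial.coeff_zero, Pi.zero_apply]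

/-- the quotients of the linear forms determine the vector up to scaling -/
theorem proportional [CharZero k] {v v' : Fin (m + 1) → k} {c : k}
    (hc : ∀ i : Fin (m + 1), c + ((i : ℕ) : k) ≠ 0) (h0 : y v c 0 ≠ 0) (h0' : y v' c 0 ≠ 0)
    (h : ∀ i, y v c i / y v c 0 = y v' c i / y v' c 0) :
    ∃ a : k, a ≠ 0 ∧ ∀ j, v' j = a * v j := by
  refine ⟨y v' c 0 / y v c 0, div_ne_zero h0' h0, ?_⟩
  have h1 : (fun j => v' j - (y v' c 0 / y v c 0) * v j) = 0 := by
    refine eq_zero_of_y hc fun i => ?_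
    have h2 : y (fun j => v' j - (y v' c 0 / y v c 0) * v j) c i =
        y v' c i - (y v' c 0 / y v c 0) * y v c i := by
      simp only [y, Finset.mul_sum, ← Finset.sum_sub_distrib]
      exact Finset.sum_congr rfl fun j _ => by ring
    rw [h2]
    have h3 := h i
    rw [div_eq_div_iff h0 h0'] at h3
    field_simp
    linear_combination -h3
  intro j
  have := congrFun h1 j
  simp only [Pi.zero_apply] at this
  linear_combination this

end roots

section geometry

open PSpace

variable {F₀ : Type} [Field F₀] {m : ℕ}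

/-- the chart of the affine line over projective space -/
abbrev alChart (F₀ : Type) [Field F₀] {m : ℕ} (j : Fin (m + 1)) :
    AL (Spec (CommRingCat.of (A F₀ j))) ⟶ AL (PS F₀ m) := alMap (chart F₀ j)

instance (j : Fin (m + 1)) : IsOpenImmersion (alChart F₀ j) :=
  MorphismProperty.of_isPullback (AffineSpace.isPullback_map (chart F₀ j)).flip inferInstance

/-- the function `K` on the chart -/
def Kfun (F₀ : Type) [Field F₀] {m : ℕ} (j : Fin (m + 1)) :
    Γ(AL (Spec (CommRingCat.of (A F₀ j))), ⊤) :=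
  K (fun i => (pr _).appTop ((Scheme.ΓSpecIso (CommRingCat.of (A F₀ j))).inv (ratio F₀ j i)))
    (AffineSpace.coord _ PUnit.unit)

/-- the moving family -/
def T (F₀ : Type) [Field F₀] (m : ℕ) : (AL (PS F₀ m)).Opens :=
  ⨆ j, (alChart F₀ j) ''ᵁ ((AL _).basicOpen (Kfun F₀ j))

theorem mem_basicOpen_iff {R : Type} [CommRing R] (j : Fin (m + 1)) (φ : A F₀ j →+* R) (c : R)
    (P : PrimeSpectrum R) :
    mk (Spec.map (CommRingCat.ofHom φ)) c P ∈ (AL _).basicOpen (Kfun F₀ j) ↔
      K (fun i => φ (ratio F₀ j i)) c ∉ P.asIdeal := by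
  set w := mk (Spec.map (CommRingCat.ofHom φ)) c with hw
  have h1 : w ⁻¹ᵁ ((AL _).basicOpen (Kfun F₀ j)) =
      PrimeSpectrum.basicOpen (K (fun i => φ (ratio F₀ j i)) c) := by
    rw [Scheme.preimage_basicOpen_top, basicOpen_eq_of_affine']
    congr 1
    let θ : Γ(AL (Spec (CommRingCat.of (A F₀ j))), ⊤) →+* R :=
      ((Scheme.ΓSpecIso (CommRingCat.of R)).hom.hom).comp w.appTop.hom
    have h2 : θ (Kfun F₀ j) = K (fun i => φ (ratio F₀ j i)) c := by
      unfold Kfun
      rw [map_K]
      congr 1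
      · funext i
        have h3 : w ≫ pr _ = Spec.map (CommRingCat.ofHom φ) := mk_pr _ _
        have h4 : (pr _ : AL (Spec (CommRingCat.of (A F₀ j))) ⟶ _).appTop ≫ w.appTop =
            (Spec.map (CommRingCat.ofHom φ)).appTop := by
          rw [← Scheme.Hom.comp_appTop, h3]
        have h5 := Scheme.ΓSpecIso_naturality (CommRingCat.ofHom φ)
        rw [← h4] at h5
        have h6 := congrArg (fun f => f.hom ((Scheme.ΓSpecIso (CommRingCat.of (A F₀ j))).inv
          (ratio F₀ j i))) h5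
        refine (show _ = _ from h6).trans ?_
        exact congrArg φ (Iso.inv_hom_id_apply (Scheme.ΓSpecIso (CommRingCat.of (A F₀ j)))
          (ratio F₀ j i))
      · exact crd_mk _ _
    exact h2
  have h2 : w P ∈ (AL _).basicOpen (Kfun F₀ j) ↔
      P ∈ w ⁻¹ᵁ ((AL _).basicOpen (Kfun F₀ j)) := Iff.rfl
  rw [h2, h1]
  rfl

theorem mem_T {k : Type} [Field k] (j : Fin (m + 1)) (φ : A F₀ j →+* k) (c : k)
    (h : K (fun i => φ (ratio F₀ j i)) c ≠ 0) :
    mk (Spec.map (CommRingCat.ofHom φ) ≫ chart F₀ j) c (⊥ : PrimeSpectrum k) ∈ T F₀ m := by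
  rw [← mk_alMap, Scheme.Hom.comp_apply]
  refine TopologicalSpace.Opens.mem_iSup.2 ⟨j, ?_⟩
  exact ⟨_, (mem_basicOpen_iff j φ c ⊥).2 h, rfl⟩

theorem exists_of_mem_T {R : Type} [CommRing R] [IsLocalRing R]
    (w : Spec (CommRingCat.of R) ⟶ AL (PS F₀ m)) (hw : w (IsLocalRing.closedPoint R) ∈ T F₀ m) :
    ∃ (j : Fin (m + 1)) (φ : A F₀ j →+* R),
      w ≫ pr _ = Spec.map (CommRingCat.ofHom φ) ≫ chart F₀ j ∧
      IsUnit (K (fun i => φ (ratio F₀ j i)) (crd w)) := by
  obtain ⟨j, hj⟩ := TopologicalSpace.Opens.mem_iSup.1 hw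
  have h1 : Set.range w ⊆ Set.range (alChart F₀ j) := by
    rintro _ ⟨x, rfl⟩
    have h3 : x ⤳ IsLocalRing.closedPoint R := IsLocalRing.specializes_closedPoint x
    obtain ⟨x', -, hx'⟩ := (h3.map w.continuous).mem_open
      ((alChart F₀ j) ''ᵁ ((AL _).basicOpen (Kfun F₀ j))).isOpen hj
    exact ⟨x', hx'⟩
  let w' := IsOpenImmersion.lift (alChart F₀ j) w h1
  have hw' : w' ≫ alChart F₀ j = w := IsOpenImmersion.lift_fac _ _ _
  obtain ⟨φ, hφ⟩ := Spec.map_surjective (w' ≫ pr _)
  have h2 : w' = mk (Spec.map (CommRingCat.ofHom φ.hom)) (crd w) := by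
    rw [← mk_crd w', CommRingCat.ofHom_hom, hφ, ← hw', crd_alMap]
  refine ⟨j, φ.hom, ?_, ?_⟩
  · rw [CommRingCat.ofHom_hom, hφ, ← hw', Category.assoc, AffineSpace.map_over, Category.assoc]
  · have h3 : w' (IsLocalRing.closedPoint R) ∈ (AL _).basicOpen (Kfun F₀ j) := by
      obtain ⟨x', hx', hx''⟩ := hj
      have h4 : alChart F₀ j (w' (IsLocalRing.closedPoint R)) = alChart F₀ j x' := by
        rw [← Scheme.Hom.comp_apply, hw']; exact hx''.symm
      rw [(alChart F₀ j).isOpenEmbedding.injective h4]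
      exact hx'
    rw [h2, mem_basicOpen_iff] at h3
    by_contra h4
    exact h3 h4

theorem closedPoint_eq (k : Type) [Field k] : IsLocalRing.closedPoint k = (⊥ : PrimeSpectrum k) :=
  Subsingleton.elim _ _

theorem bad_le (k : Type) [Field k] (p : Spec (CommRingCat.of k) ⟶ PS F₀ m)
    (hN : ((Nat.factorial (m + 1) : ℕ) : k) ≠ 0) :
    {c : k | mk p c (⊥ : PrimeSpectrum k) ∉ T F₀ m}.encard ≤ dd m := by
  obtain ⟨j, φ, rfl⟩ := exists_factor p
  refine (Set.encard_le_encard ?_).trans (encard_bad (v := fun i => φ (ratio F₀ j i))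
    ⟨j, by rw [ratio_self, map_one]; exact one_ne_zero⟩ hN)
  intro c hc
  by_contra h
  exact hc (mem_T j φ c h)

/-- points with proportional coordinates are equal -/
theorem coords_unique {k : Type} [Field k] {j j' : Fin (m + 1)} (φ : A F₀ j →+* k)
    (φ' : A F₀ j' →+* k)
    (h0 : Spec.map (CommRingCat.ofHom φ) ≫ chart F₀ j ≫ psStr F₀ m =
      Spec.map (CommRingCat.ofHom φ') ≫ chart F₀ j' ≫ psStr F₀ m) (a : k) (ha : a ≠ 0)
    (h : ∀ i, φ' (ratio F₀ j' i) = a * φ (ratio F₀ j i)) :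
    Spec.map (CommRingCat.ofHom φ) ≫ chart F₀ j = Spec.map (CommRingCat.ofHom φ') ≫ chart F₀ j' := by
  have h1 : φ' (ratio F₀ j' j) = a := by rw [h, ratio_self, map_one, mul_one]
  obtain ⟨ψ, hψ⟩ := change_chart (l := j) φ' (by rw [h1]; exact ha)
  have h2 : ψ = φ := by
    apply PSpace.hom_ext
    · have h3 : Spec.map (CommRingCat.ofHom φ) ≫ chart F₀ j ≫ psStr F₀ m =
          Spec.map (CommRingCat.ofHom ψ) ≫ chart F₀ j ≫ psStr F₀ m := by
        rw [h0, ← Category.assoc, hψ, Category.assoc]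
      rw [chart_psStr, ← Spec.map_comp, ← Spec.map_comp] at h3
      exact (congrArg CommRingCat.Hom.hom (Spec.map_injective h3)).symm
    · intro i
      have h4 := transition φ' ψ hψ i
      rw [h, h1] at h4
      exact (mul_left_cancel₀ ha h4).symm
  rw [hψ, h2]

theorem local_coords {σ : F₀ →+* ℂ} {p : ℂ → (Spec (CommRingCat.of ℂ) ⟶ PS F₀ m)}
    (hp : IsHolomorphicMap σ (psStr F₀ m) p) (z : ℂ) (j : Fin (m + 1))
    (hj : pt (p z) ∈ (chart F₀ j).opensRange) :
    ∃ (g : ℂ → (A F₀ j →+* ℂ)) (D : Set ℂ), IsOpen D ∧ z ∈ D ∧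
      (∀ w ∈ D, p w = Spec.map (CommRingCat.ofHom (g w)) ≫ chart F₀ j) ∧
      ∀ a, DifferentiableOn ℂ (fun w => g w a) D := by
  obtain ⟨B, j', g, D, hj', hD, hz, hfg, hhol, hO⟩ := exists_chart_in hp z (chart F₀ j).opensRange hj
  have hO' : Set.range j' ⊆ Set.range (chart F₀ j) := hO
  obtain ⟨θ, hθ⟩ := Spec.map_surjective (IsOpenImmersion.lift (chart F₀ j) j' hO')
  have hθ' : Spec.map θ ≫ chart F₀ j = j' := by rw [hθ, IsOpenImmersion.lift_fac]
  refine ⟨fun w => (g w).comp θ.hom, D, hD, hz, fun w hw => ?_, fun a => hhol (θ.hom a)⟩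
  rw [hfg w hw, ← hθ', ← Category.assoc, ← Spec.map_comp]
  rfl

theorem tame1_T (σ : F₀ →+* ℂ) :
    Tame1 σ (pr (PS F₀ m) ≫ psStr F₀ m) (T F₀ m ⊓ unitOpen (PS F₀ m)) := by
  intro h hh hT z w
  have hc : ∀ z, crd (h z) = crd (h 0) := by
    intro z
    refine picard_two (fun z => crd (h z)) (differentiable_crd hh) 0 1 zero_ne_one (fun z => ?_) z 0
    exact (mem_unitOpen_iff (h z)).1 (hT z).2
  set c := crd (h 0) with hcdef
  have hex : ∀ z, ∃ (j : Fin (m + 1)) (φ : A F₀ j →+* ℂ),
      h z ≫ pr _ = Spec.map (CommRingCat.ofHom φ) ≫ chart F₀ j ∧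
      IsUnit (K (fun i => φ (ratio F₀ j i)) c) := by
    intro z
    rw [← hc z]
    exact exists_of_mem_T (h z) (by rw [closedPoint_eq]; exact (hT z).1)
  choose j φ hφ hK using hex
  let v : ℂ → Fin (m + 1) → ℂ := fun z i => φ z (ratio F₀ (j z) i)
  have hy : ∀ z i, y (v z) c i ≠ 0 := fun z i => (isUnit_K (hK z) i).2.1.ne_zero
  have hcc : ∀ i : Fin (m + 1), c + ((i : ℕ) : ℂ) ≠ 0 := fun i => (isUnit_K (hK 0) i).1.ne_zero
  have hp : IsHolomorphicMap σ (psStr F₀ m) (fun z => h z ≫ pr _) := holo_comp (pr _) hh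
  let u : Fin (m + 1) → ℂ → ℂ := fun i z => y (v z) c i / y (v z) c 0
  have hu : ∀ i, Differentiable ℂ (u i) := by
    intro i z₀
    obtain ⟨g, D, hD, hz, hg, hdiff⟩ := local_coords hp z₀ (j z₀) (by
      show pt (h z₀ ≫ pr _) ∈ _
      rw [hφ z₀]
      exact ⟨_, rfl⟩)
    let v' : ℂ → Fin (m + 1) → ℂ := fun w i => g w (ratio F₀ (j z₀) i)
    have htr : ∀ w ∈ D, ∀ i, v w i = φ w (ratio F₀ (j w) (j z₀)) * v' w i := fun w hw i =>
      transition (φ w) (g w) (by rw [← hφ w]; exact hg w hw) i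
    have hyv : ∀ w ∈ D, ∀ i, y (v w) c i = φ w (ratio F₀ (j w) (j z₀)) * y (v' w) c i := by
      intro w hw i
      rw [← y_smul]
      congr 1
      funext i
      exact htr w hw i
    have hl : ∀ w ∈ D, φ w (ratio F₀ (j w) (j z₀)) ≠ 0 := by
      intro w hw h0
      have := hyv w hw 0
      rw [h0, zero_mul] at this
      exact hy w 0 this
    have hy' : ∀ w ∈ D, y (v' w) c 0 ≠ 0 := by
      intro w hw h0
      have := hyv w hw 0
      rw [h0, mul_zero] at this
      exact hy w 0 this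
    have hu' : ∀ w ∈ D, u i w = y (v' w) c i / y (v' w) c 0 := by
      intro w hw
      show y (v w) c i / y (v w) c 0 = _
      rw [hyv w hw i, hyv w hw 0, mul_div_mul_left _ _ (hl w hw)]
    have hyd : ∀ i, DifferentiableOn ℂ (fun w => y (v' w) c i) D := by
      intro i
      unfold y
      exact DifferentiableOn.fun_sum fun l _ => (hdiff (ratio F₀ (j z₀) l)).mul_const _
    have h5 : DifferentiableAt ℂ (fun w => y (v' w) c i / y (v' w) c 0) z₀ :=
      ((hyd i).div (hyd 0) hy').differentiableAt (hD.mem_nhds hz)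
    refine h5.congr_of_eventuallyEq ?_
    filter_upwards [hD.mem_nhds hz] with w hw
    exact hu' w hw
  have hconst : ∀ i, u i z = u i w := by
    intro i
    by_cases hi : i = 0
    · rw [hi]
      show y (v z) c 0 / y (v z) c 0 = y (v w) c 0 / y (v w) c 0
      rw [div_self (hy z 0), div_self (hy w 0)]
    · refine picard_two (u i) (hu i) 0 1 zero_ne_one (fun z => ⟨div_ne_zero (hy z i) (hy z 0), ?_⟩) z w
      intro h1
      have h2 := (isUnit_K (hK z) i).2.2 0 (Ne.symm hi)
      apply h2.ne_zero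
      have h3 : y (v z) c i / y (v z) c 0 = 1 := h1
      rw [div_eq_one_iff_eq (hy z 0)] at h3
      exact sub_eq_zero.2 h3
  obtain ⟨a, ha, hav⟩ := proportional (v := v z) (v' := v w) hcc (hy z 0) (hy w 0) hconst
  have hpp : h z ≫ pr _ = h w ≫ pr _ := by
    rw [hφ z, hφ w]
    refine coords_unique (φ z) (φ w) ?_ a ha hav
    rw [← Category.assoc, ← Category.assoc, ← hφ z, ← hφ w, Category.assoc, Category.assoc,
      hh.structural z, hh.structural w]
  rw [← mk_crd (h z), ← mk_crd (h w), hpp, hc z, hc w]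

/-- an element of the fraction field which is locally a unit is a unit -/
theorem isUnit_of_local {R F : Type} [CommRing R] [Field F] [Algebra R F]
    (hinj : Function.Injective (algebraMap R F)) (x : F)
    (h : ∀ M : Ideal R, M.IsMaximal →
      ∃ s ∉ M, ∃ a ∉ M, x * algebraMap R F s = algebraMap R F a) :
    ∃ u, IsUnit u ∧ algebraMap R F u = x := by
  let I : Ideal R :=
    { carrier := {s | ∃ a, x * algebraMap R F s = algebraMap R F a}
      add_mem' := by
        rintro s t ⟨a, ha⟩ ⟨b, hb⟩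
        exact ⟨a + b, by rw [map_add, mul_add, ha, hb, map_add]⟩
      zero_mem' := ⟨0, by simp⟩
      smul_mem' := by
        rintro c s ⟨a, ha⟩
        exact ⟨c * a, by rw [smul_eq_mul, map_mul, map_mul, ← ha]; ring⟩ }
  have hI : I = ⊤ := by
    by_contra hne
    obtain ⟨M, hM, hIM⟩ := Ideal.exists_le_maximal I hne
    obtain ⟨s, hs, a, -, ha⟩ := h M hM
    exact hs (hIM ⟨a, ha⟩)
  have h1 : (1 : R) ∈ I := by rw [hI]; trivial
  obtain ⟨u, hu⟩ := h1
  rw [map_one, mul_one] at hu
  refine ⟨u, ?_, hu.symm⟩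
  by_contra hn
  obtain ⟨M, hM, hM'⟩ := exists_max_ideal_of_mem_nonunits hn
  obtain ⟨s, hs, a, ha, hsa⟩ := h M hM
  apply ha
  rw [hu, ← map_mul] at hsa
  rw [← hinj hsa]
  exact M.mul_mem_right _ hM'

theorem exists_frac {R F : Type} [CommRing R] [Field F] [Algebra R F] (M : Ideal R) [M.IsPrime]
    (b : Localization.AtPrime M →+* F)
    (hb : b.comp (algebraMap R (Localization.AtPrime M)) = algebraMap R F)
    (x : Localization.AtPrime M) (hx : IsUnit x) :
    ∃ s ∉ M, ∃ a ∉ M, b x * algebraMap R F s = algebraMap R F a := by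
  obtain ⟨⟨a, s⟩, has⟩ := IsLocalization.surj M.primeCompl x
  refine ⟨s, s.2, a, ?_, ?_⟩
  · intro ha
    have h1 : IsUnit (algebraMap R (Localization.AtPrime M) a) := by
      rw [← has]
      exact hx.mul (IsLocalization.map_units (Localization.AtPrime M) s)
    exact (IsLocalization.AtPrime.isUnit_to_map_iff (Localization.AtPrime M) M a).1 h1 ha
  · have h1 := congrArg b has
    rw [map_mul] at h1
    have h2 : ∀ r : R, b (algebraMap R (Localization.AtPrime M) r) = algebraMap R F r := fun r =>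
      congrArg (fun f : R →+* F => f r) hb
    rw [h2, h2] at h1
    exact h1

theorem local_invariants {R F : Type} [CommRing R] [Field F] [Algebra R F]
    (hinj : Function.Injective (algebraMap R F)) (w : Spec (CommRingCat.of R) ⟶ AL (PS F₀ m))
    (hw : Set.range w ⊆ T F₀ m) (j : Fin (m + 1)) (φ : A F₀ j →+* F)
    (hφ : Spec.map (CommRingCat.ofHom (algebraMap R F)) ≫ w ≫ pr _ =
          Spec.map (CommRingCat.ofHom φ) ≫ chart F₀ j) (M : Ideal R) [M.IsPrime]
    (i : Fin (m + 1)) (hi : i ≠ 0) :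
    (∃ s ∉ M, ∃ a ∉ M, y (fun i => φ (ratio F₀ j i)) (algebraMap R F (crd w)) i /
          y (fun i => φ (ratio F₀ j i)) (algebraMap R F (crd w)) 0 * algebraMap R F s =
          algebraMap R F a) ∧
    ∃ s ∉ M, ∃ a ∉ M, (y (fun i => φ (ratio F₀ j i)) (algebraMap R F (crd w)) i /
          y (fun i => φ (ratio F₀ j i)) (algebraMap R F (crd w)) 0 - 1) * algebraMap R F s =
          algebraMap R F a := by
  set c : F := algebraMap R F (crd w) with hcdef
  let v : Fin (m + 1) → F := fun i => φ (ratio F₀ j i)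
  let L := Localization.AtPrime M
  let b : L →+* F := IsLocalization.lift (M := M.primeCompl) (g := algebraMap R F) (by
    rintro ⟨s, hs⟩
    rw [isUnit_iff_ne_zero]
    intro h0
    have : s = 0 := hinj (by rw [map_zero]; exact h0)
    exact hs (this ▸ M.zero_mem))
  have hb : b.comp (algebraMap R L) = algebraMap R F := IsLocalization.lift_comp _
  obtain ⟨j', φ', hφ', hK'⟩ := exists_of_mem_T (Spec.map (CommRingCat.ofHom (algebraMap R L)) ≫ w)
    (by rw [Scheme.Hom.comp_apply]; exact hw ⟨_, rfl⟩)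
  rw [crd_comp] at hK'
  rw [Category.assoc] at hφ'
  let v' : Fin (m + 1) → L := fun i => φ' (ratio F₀ j' i)
  let c' : L := algebraMap R L (crd w)
  have hbc : b c' = c := congrArg (fun f : R →+* F => f (crd w)) hb
  have hu : ∀ i, IsUnit (y v' c' i) := fun i => (isUnit_K hK' i).2.1
  have heq : Spec.map (CommRingCat.ofHom (b.comp φ')) ≫ chart F₀ j' =
      Spec.map (CommRingCat.ofHom φ) ≫ chart F₀ j := by
    rw [← hφ, CommRingCat.ofHom_comp, Spec.map_comp, Category.assoc, ← hφ', ← Category.assoc,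
      ← Spec.map_comp, ← CommRingCat.ofHom_comp, hb]
  have htr : ∀ i, b (v' i) = b (v' j) * v i := fun i => transition (b.comp φ') φ heq i
  have hyv : ∀ i, b (y v' c' i) = b (v' j) * y v c i := by
    intro i
    rw [map_y, hbc, ← y_smul]
    congr 1
    funext i
    exact htr i
  have hl : b (v' j) ≠ 0 := by
    intro h0
    have := hyv 0
    rw [h0, zero_mul] at this
    exact ((hu 0).map b).ne_zero this
  have hbu : ∀ i, b (y v' c' i) / b (y v' c' 0) = y v c i / y v c 0 := fun i => by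
    rw [hyv i, hyv 0, mul_div_mul_left _ _ hl]
  have hdiff : IsUnit (y v' c' i - y v' c' 0) := (isUnit_K hK' i).2.2 0 (Ne.symm hi)
  obtain ⟨q, hq⟩ := (hu 0).exists_right_inv
  have hbq : b q = (b (y v' c' 0))⁻¹ := by
    rw [eq_comm, inv_eq_iff_eq_inv, eq_comm, inv_eq_iff_eq_inv, eq_comm]
    rw [← one_div, div_eq_iff ((hu 0).map b).ne_zero, ← map_mul, mul_comm, hq, map_one]
  have hqu : IsUnit q := IsUnit.of_mul_eq_one _ (by rw [mul_comm]; exact hq)
  constructor
  · have h1 := exists_frac M b hb (y v' c' i * q) ((hu i).mul hqu)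
    rwa [map_mul, hbq, ← div_eq_mul_inv, hbu i] at h1
  · have h1 := exists_frac M b hb ((y v' c' i - y v' c' 0) * q) (hdiff.mul hqu)
    rwa [map_mul, hbq, ← div_eq_mul_inv, map_sub, ← div_sub_one ((hu 0).map b).ne_zero,
      hbu i] at h1

/-- the invariants of an integral point -/
theorem exists_invariants {R F : Type} [CommRing R] [Field F] [Algebra R F]
    (hinj : Function.Injective (algebraMap R F)) (w : Spec (CommRingCat.of R) ⟶ AL (PS F₀ m))
    (hw : Set.range w ⊆ T F₀ m) :
    ∃ U : Fin (m + 1) → R, (∀ i, U i = 1 ∨ (IsUnit (U i) ∧ IsUnit (U i - 1))) ∧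
      ∃ (j : Fin (m + 1)) (φ : A F₀ j →+* F),
        Spec.map (CommRingCat.ofHom (algebraMap R F)) ≫ w ≫ pr _ =
          Spec.map (CommRingCat.ofHom φ) ≫ chart F₀ j ∧
        (∀ i : Fin (m + 1), algebraMap R F (crd w) + ((i : ℕ) : F) ≠ 0) ∧
        y (fun i => φ (ratio F₀ j i)) (algebraMap R F (crd w)) 0 ≠ 0 ∧
        ∀ i, algebraMap R F (U i) = y (fun i => φ (ratio F₀ j i)) (algebraMap R F (crd w)) i /
          y (fun i => φ (ratio F₀ j i)) (algebraMap R F (crd w)) 0 := by
  obtain ⟨j, φ, hφ, hK⟩ := exists_of_mem_T (Spec.map (CommRingCat.ofHom (algebraMap R F)) ≫ w)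
    (by rw [Scheme.Hom.comp_apply]; exact hw ⟨_, rfl⟩)
  rw [crd_comp] at hK
  rw [Category.assoc] at hφ
  have hy : ∀ i, y (fun i => φ (ratio F₀ j i)) (algebraMap R F (crd w)) i ≠ 0 :=
    fun i => (isUnit_K hK i).2.1.ne_zero
  have h1 : ∀ i : Fin (m + 1), ∃ u : R, (u = 1 ∨ (IsUnit u ∧ IsUnit (u - 1))) ∧
      algebraMap R F u = y (fun i => φ (ratio F₀ j i)) (algebraMap R F (crd w)) i /
          y (fun i => φ (ratio F₀ j i)) (algebraMap R F (crd w)) 0 := by
    intro i
    by_cases hi : i = 0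
    · refine ⟨1, Or.inl rfl, ?_⟩
      rw [hi, div_self (hy 0), map_one]
    · obtain ⟨u, hu, hux⟩ := isUnit_of_local hinj _ (fun M hM =>
        haveI := hM.isPrime
        (local_invariants hinj w hw j φ hφ M i hi).1)
      obtain ⟨u', hu', hux'⟩ := isUnit_of_local hinj _ (fun M hM =>
        haveI := hM.isPrime
        (local_invariants hinj w hw j φ hφ M i hi).2)
      refine ⟨u, Or.inr ⟨hu, ?_⟩, hux⟩
      have h2 : u' = u - 1 := hinj (by rw [map_sub, map_one, hux, hux'])
      rw [← h2]; exact hu'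
  choose U hU1 hU2 using h1
  exact ⟨U, hU1, j, φ, hφ, fun i => (isUnit_K hK i).1.ne_zero, hy 0, hU2⟩

theorem tame2_T [NumberField F₀] (hU : UFin) :
    Tame2 (pr (PS F₀ m) ≫ psStr F₀ m) (T F₀ m ⊓ unitOpen (PS F₀ m)) := by
  intro F _ _ _ S
  have hinj : Function.Injective (algebraMap (SInt F S) F) := Subtype.val_injective
  let E : Set (SInt F S) := {t | IsUnit t ∧ IsUnit (t + ((-1 : ℤ) : SInt F S))}
  have hE : E.Finite := hU F S (-1) (by norm_num)
  have hE' : (insert 1 E).Finite := hE.insert 1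
  have hEm : ∀ t : SInt F S, IsUnit t → IsUnit (t - 1) → t ∈ E := by
    intro t h1 h2
    refine ⟨h1, ?_⟩
    rw [Int.cast_neg, Int.cast_one, ← sub_eq_add_neg]
    exact h2
  have hex : ∀ w : Spec (CommRingCat.of (SInt F S)) ⟶ AL (PS F₀ m),
      w ∈ {x ∈ integralPoints (pr (PS F₀ m) ≫ psStr F₀ m) F S |
        Set.range x ⊆ T F₀ m ⊓ unitOpen (PS F₀ m)} → _ := fun w hw =>
    exists_invariants hinj w (fun x hx => (hw.2 hx).1)
  choose! U hU1 hU2 using hex
  refine Set.Finite.of_finite_image (f := fun w => (crd w, U w))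
    ((hE.prod (Set.Finite.pi' (fun _ : Fin (m + 1) => hE'))).subset ?_) ?_
  · rintro _ ⟨w, hw, rfl⟩
    have h1 := (range_unitOpen_iff w).1 (fun x hx => (hw.2 hx).2)
    refine ⟨hEm _ h1.1 h1.2, fun i => ?_⟩
    rcases hU1 w hw i with h | h
    · exact Or.inl h
    · exact Or.inr (hEm _ h.1 h.2)
  · intro w hw w' hw' heq
    have hc : crd w = crd w' := congrArg Prod.fst heq
    have hUU : U w = U w' := congrArg Prod.snd heq
    obtain ⟨j, φ, hφ, hcc, hy, hu⟩ := hU2 w hw
    obtain ⟨j', φ', hφ', -, hy', hu'⟩ := hU2 w' hw'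
    rw [← hc] at hy' hu'
    obtain ⟨a, ha, hav⟩ := proportional (v := fun i => φ (ratio F₀ j i))
      (v' := fun i => φ' (ratio F₀ j' i)) hcc hy hy' (fun i => by
        rw [← hu i, ← hu' i, hUU])
    have h1 : Spec.map (CommRingCat.ofHom φ) ≫ chart F₀ j =
        Spec.map (CommRingCat.ofHom φ') ≫ chart F₀ j' := by
      refine coords_unique φ φ' ?_ a ha hav
      rw [← Category.assoc, ← Category.assoc, ← hφ, ← hφ']
      have h2 : w ≫ pr _ ≫ psStr F₀ m = _ := hw.1
      have h3 : w' ≫ pr _ ≫ psStr F₀ m = _ := hw'.1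
      simp only [Category.assoc]
      rw [h2, h3]
    have h4 : w ≫ pr _ = w' ≫ pr _ := by
      obtain ⟨J, hJ⟩ := exists_ideal_eq (V := PS F₀ m) (w ≫ pr _) (w' ≫ pr _)
      have h5 := (hJ _ (CommRingCat.ofHom (algebraMap (SInt F S) F))).1
        (by rw [hφ, hφ', h1])
      have h6 := (hJ _ (𝟙 (CommRingCat.of (SInt F S)))).2 (h5.trans (by
        intro x hx
        have h7 : algebraMap (SInt F S) F x = 0 := hx
        have h8 : x = 0 := hinj (by rw [h7, map_zero])
        rw [h8]
        exact zero_mem _))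
      simpa using h6
    rw [← mk_crd w, ← mk_crd w', h4, hc]

end geometry

end MoveP

theorem moving_projectiveSpace (F₀ : Type) [Field F₀] [NumberField F₀] (hU : UFin) (m : ℕ) :
    Nonempty (Moving (psStr F₀ m)) :=
  ⟨{ T := MoveP.T F₀ m
     tame1 := MoveP.tame1_T
     tame2 := MoveP.tame2_T hU
     d := MoveP.dd m
     N₀ := Nat.factorial (m + 1)
     hN₀ := Nat.factorial_ne_zero _
     bad := fun k _ p hN => MoveP.bad_le k p hN }⟩

end Pool.Agent.Work.MP_e97a4d_nt.Sep
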