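import Pool.Agent.Work.MP_e97a4d_nt.Sep.Holo

/-!
Charts of projective space over the ring of integers.
-/

set_option autoImplicit false

noncomputable section

namespace Pool.Agent.Work.MP_e97a4d_nt.Sep.PSpace

open AlgebraicGeometry CategoryTheory CategoryTheory.Limits IsDedekindDomain NumberField
open HomogeneousLocalization

attribute [local instance] MvPolynomial.gradedAlgebra

variable {F₀ : Type} [Field F₀] {m : ℕ}

/-- the grading -/
abbrev G (F₀ : Type) [Field F₀] (m : ℕ) : ℕ → Submodule (𝓞 F₀) (MvPolynomial (Fin (m + 1)) (𝓞 F₀)) :=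
  MvPolynomial.homogeneousSubmodule (Fin (m + 1)) (𝓞 F₀)

/-- the coordinates -/
abbrev X (F₀ : Type) [Field F₀] {m : ℕ} (j : Fin (m + 1)) : MvPolynomial (Fin (m + 1)) (𝓞 F₀) :=
  MvPolynomial.X j

theorem X_mem (j : Fin (m + 1)) : X F₀ j ∈ G F₀ m 1 :=
  MvPolynomial.isHomogeneous_X _ _

/-- the ring of functions on the chart `x_j ≠ 0` -/
abbrev A (F₀ : Type) [Field F₀] {m : ℕ} (j : Fin (m + 1)) : Type := Away (G F₀ m) (X F₀ j)

/-- the chart `x_j ≠ 0` -/
def chart (F₀ : Type) [Field F₀] {m : ℕ} (j : Fin (m + 1)) :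
    Spec (CommRingCat.of (A F₀ j)) ⟶ PS F₀ m :=
  Proj.awayι (G F₀ m) (X F₀ j) (X_mem j) one_pos

instance (j : Fin (m + 1)) : IsOpenImmersion (chart F₀ j) := by
  unfold chart; infer_instance

theorem opensRange_chart (j : Fin (m + 1)) :
    (chart F₀ j).opensRange = Proj.basicOpen (G F₀ m) (X F₀ j) :=
  Proj.opensRange_awayι _ _ _ _

theorem exists_chart (p : PS F₀ m) : ∃ j, p ∈ (chart F₀ j).opensRange := by
  have h : ⨆ j : Fin (m + 1), Proj.basicOpen (G F₀ m) (X F₀ j) = ⊤ := by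
    apply Proj.iSup_basicOpen_eq_top'
    · exact fun i => ⟨1, X_mem i⟩
    · have h1 : Algebra.adjoin (𝓞 F₀) (Set.range (MvPolynomial.X : Fin (m + 1) → _)) = ⊤ :=
        MvPolynomial.adjoin_range_X
      rw [eq_top_iff]
      rintro x -
      have hx : x ∈ Algebra.adjoin (𝓞 F₀)
          (Set.range (MvPolynomial.X : Fin (m + 1) → MvPolynomial (Fin (m + 1)) (𝓞 F₀))) := by
        rw [h1]; trivial
      induction hx using Algebra.adjoin_induction with
      | mem x hx => exact Algebra.subset_adjoin hx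
      | algebraMap r =>
        exact Subalgebra.algebraMap_mem
          (Algebra.adjoin ((G F₀ m) 0) (Set.range fun i : Fin (m + 1) => X F₀ i))
          (⟨MvPolynomial.C r, MvPolynomial.isHomogeneous_C _ _⟩ : (G F₀ m) 0)
      | add x y _ _ h1 h2 => exact add_mem h1 h2
      | mul x y _ _ h1 h2 => exact mul_mem h1 h2
  have hp : p ∈ ⨆ j : Fin (m + 1), Proj.basicOpen (G F₀ m) (X F₀ j) := by rw [h]; trivial
  obtain ⟨j, hj⟩ := TopologicalSpace.Opens.mem_iSup.1 hp
  exact ⟨j, by rw [opensRange_chart]; exact hj⟩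

/-- the function `x_i / x_j` -/
def ratio (F₀ : Type) [Field F₀] {m : ℕ} (j i : Fin (m + 1)) : A F₀ j :=
  Away.mk (G F₀ m) (X_mem j) 1 (X F₀ i) (by simpa using X_mem (F₀ := F₀) i)

/-- the constants -/
def cst (F₀ : Type) [Field F₀] {m : ℕ} (j : Fin (m + 1)) : 𝓞 F₀ →+* A F₀ j :=
  (fromZeroRingHom (G F₀ m) _).comp (algebraMap (𝓞 F₀) ((G F₀ m) 0))

theorem chart_psStr (j : Fin (m + 1)) :
    chart F₀ j ≫ psStr F₀ m = Spec.map (CommRingCat.ofHom (cst F₀ j)) := by
  unfold chart psStr cst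
  rw [Proj.awayι_toSpecZero_assoc, ← Spec.map_comp]
  rfl

theorem ratio_self (j : Fin (m + 1)) : ratio F₀ j j = 1 := by
  apply val_injective
  rw [val_one]
  unfold ratio
  rw [Away.val_mk]
  simp only [pow_one]
  exact Localization.mk_self (⟨X F₀ j, _⟩ : Submonoid.powers (X F₀ j))

theorem val_ratio (j i : Fin (m + 1)) :
    algebraMap _ (Localization.Away (X F₀ j)) (X F₀ i) =
      algebraMap _ (Localization.Away (X F₀ j)) (X F₀ j) *
        (ratio F₀ j i).val := by
  unfold ratio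
  rw [Away.val_mk, Localization.mk_eq_mk', mul_comm, eq_comm]
  simp

theorem val_cst (j : Fin (m + 1)) (r : 𝓞 F₀) :
    (cst F₀ j r).val = algebraMap (MvPolynomial (Fin (m + 1)) (𝓞 F₀))
      (Localization.Away (X F₀ j)) (MvPolynomial.C r) := rfl

/-- every function on the chart is a polynomial in the ratios -/
theorem exists_poly (j : Fin (m + 1)) (a : A F₀ j) :
    ∃ q : MvPolynomial (Fin (m + 1)) (𝓞 F₀), a = MvPolynomial.eval₂ (cst F₀ j) (ratio F₀ j) q := by
  obtain ⟨n, q, hq, rfl⟩ := Away.mk_surjective (G F₀ m) (X_mem j) a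
  refine ⟨q, ?_⟩
  have hq' : q.IsHomogeneous n := by simpa using hq
  apply val_injective
  set L := Localization.Away (X F₀ j) with hL
  have hX : IsUnit (algebraMap _ L (X F₀ j)) := IsLocalization.Away.algebraMap_isUnit _
  have h1 : (MvPolynomial.eval₂ (cst F₀ j) (ratio F₀ j) q).val =
      MvPolynomial.eval₂ ((algebraMap (MvPolynomial (Fin (m + 1)) (𝓞 F₀)) L).comp MvPolynomial.C)
        (fun i => (ratio F₀ j i).val) q := by
    have h2 : (MvPolynomial.eval₂ (cst F₀ j) (ratio F₀ j) q).val =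
      algebraMap (A F₀ j) L (MvPolynomial.eval₂ (cst F₀ j) (ratio F₀ j) q) := rfl
    rw [h2, MvPolynomial.hom_eval₂]
    rfl
  have h3 : algebraMap _ L q = (algebraMap _ L (X F₀ j)) ^ n *
      MvPolynomial.eval₂ ((algebraMap (MvPolynomial (Fin (m + 1)) (𝓞 F₀)) L).comp MvPolynomial.C)
        (fun i => (ratio F₀ j i).val) q := by
    have h4 : algebraMap _ L q = MvPolynomial.eval₂
        ((algebraMap (MvPolynomial (Fin (m + 1)) (𝓞 F₀)) L).comp MvPolynomial.C)
        (fun i => algebraMap _ L (X F₀ j) * (ratio F₀ j i).val) q := by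
      have h5 : (fun i => algebraMap _ L (X F₀ j) * (ratio F₀ j i).val) =
          fun i => algebraMap _ L (X F₀ i) := by
        funext i; exact (val_ratio j i).symm
      rw [h5]
      have h6 := MvPolynomial.hom_eval₂ q MvPolynomial.C (algebraMap _ L) MvPolynomial.X
      rw [MvPolynomial.eval₂_eta] at h6
      exact h6
    rw [h4, MvPolynomial.eval₂_eq', MvPolynomial.eval₂_eq', Finset.mul_sum]
    refine Finset.sum_congr rfl fun d hd => ?_
    have hd' : ∑ i, d i = n := by
      have := hq' (MvPolynomial.mem_support_iff.1 hd)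
      rw [Finsupp.weight_apply] at this
      simpa [Finsupp.sum_fintype] using this
    simp_rw [mul_pow]
    rw [Finset.prod_mul_distrib, Finset.prod_pow_eq_pow_sum, hd']
    ring
  rw [h1, Away.val_mk, Localization.mk_eq_mk']
  apply (hX.pow n).mul_left_cancel
  rw [← h3, mul_comm]
  have := IsLocalization.mk'_spec L q
    (⟨X F₀ j ^ n, n, rfl⟩ : Submonoid.powers (X F₀ j))
  simpa using this

theorem hom_ext {R : Type} [CommRing R] {j : Fin (m + 1)} {φ ψ : A F₀ j →+* R}
    (h0 : φ.comp (cst F₀ j) = ψ.comp (cst F₀ j)) (h : ∀ i, φ (ratio F₀ j i) = ψ (ratio F₀ j i)) :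
    φ = ψ := by
  ext a
  obtain ⟨q, rfl⟩ := exists_poly j a
  rw [MvPolynomial.hom_eval₂, MvPolynomial.hom_eval₂, h0]
  congr 1
  funext i
  exact h i

/-- proportionality of the coordinates in two charts -/
theorem transition {R : Type} [CommRing R] {j l : Fin (m + 1)} (φ : A F₀ j →+* R)
    (ψ : A F₀ l →+* R)
    (h : Spec.map (CommRingCat.ofHom φ) ≫ chart F₀ j = Spec.map (CommRingCat.ofHom ψ) ≫ chart F₀ l)
    (i : Fin (m + 1)) : φ (ratio F₀ j i) = φ (ratio F₀ j l) * ψ (ratio F₀ l i) := by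
  unfold chart at h
  let e := Proj.pullbackAwayιIso (G F₀ m) (X_mem j) one_pos (X_mem l) one_pos
    (x := X F₀ j * X F₀ l) rfl
  let s := pullback.lift _ _ h
  obtain ⟨χ, hχ⟩ := Spec.map_surjective (s ≫ e.hom)
  have h1 : Spec.map (CommRingCat.ofHom φ) =
      Spec.map χ ≫ Spec.map (CommRingCat.ofHom (awayMap (G F₀ m) (X_mem l) rfl)) := by
    rw [hχ, Category.assoc, Proj.pullbackAwayιIso_hom_SpecMap_awayMap_left (G F₀ m) (X_mem j)
      one_pos (X_mem l) one_pos (x := X F₀ j * X F₀ l) rfl]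
    exact (pullback.lift_fst _ _ h).symm
  have h2 : Spec.map (CommRingCat.ofHom ψ) =
      Spec.map χ ≫ Spec.map (CommRingCat.ofHom
        (awayMap (G F₀ m) (X_mem j) (mul_comm (X F₀ j) (X F₀ l)))) := by
    rw [hχ, Category.assoc, Proj.pullbackAwayιIso_hom_SpecMap_awayMap_right (G F₀ m) (X_mem j)
      one_pos (X_mem l) one_pos (x := X F₀ j * X F₀ l) rfl]
    exact (pullback.lift_snd _ _ h).symm
  have h3 : φ = χ.hom.comp (awayMap (G F₀ m) (X_mem l) rfl) := by
    rw [← Spec.map_comp] at h1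
    exact congrArg CommRingCat.Hom.hom (Spec.map_injective h1)
  have h4 : ψ = χ.hom.comp (awayMap (G F₀ m) (X_mem j) (mul_comm (X F₀ j) (X F₀ l))) := by
    rw [← Spec.map_comp] at h2
    exact congrArg CommRingCat.Hom.hom (Spec.map_injective h2)
  rw [h3, h4, RingHom.comp_apply, RingHom.comp_apply, RingHom.comp_apply, ← map_mul]
  congr 1
  apply val_injective
  unfold ratio
  rw [val_mul, awayMap_mk, awayMap_mk, awayMap_mk, Away.val_mk, Away.val_mk, Away.val_mk,
    Localization.mk_mul, Localization.mk_eq_mk_iff, Localization.r_iff_exists]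
  refine ⟨1, ?_⟩
  simp
  ring

/-- changing the chart -/
theorem change_chart {k : Type} [Field k] {j l : Fin (m + 1)} (φ : A F₀ j →+* k)
    (h : φ (ratio F₀ j l) ≠ 0) : ∃ ψ : A F₀ l →+* k,
      Spec.map (CommRingCat.ofHom φ) ≫ chart F₀ j = Spec.map (CommRingCat.ofHom ψ) ≫ chart F₀ l := by
  have h1 : chart F₀ j ⁻¹ᵁ (chart F₀ l).opensRange = PrimeSpectrum.basicOpen (ratio F₀ j l) := by
    rw [opensRange_chart]
    unfold chart
    rw [Proj.awayι_preimage_basicOpen (G F₀ m) (X_mem j) one_pos (X_mem l) one_pos]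
    congr 1
    apply val_injective
    unfold ratio
    rw [Away.val_mk, Away.val_mk]
    congr 1
    simp
  have h2 : Set.range (Spec.map (CommRingCat.ofHom φ) ≫ chart F₀ j) ⊆ Set.range (chart F₀ l) := by
    rintro _ ⟨p, rfl⟩
    have hp : p = (⊥ : PrimeSpectrum k) := Subsingleton.elim _ _
    have h3 : (Spec.map (CommRingCat.ofHom φ)) p ∈ chart F₀ j ⁻¹ᵁ (chart F₀ l).opensRange := by
      rw [h1, hp]
      intro h4
      exact h h4
    exact h3
  obtain ⟨ψ, hψ⟩ := Spec.map_surjective (IsOpenImmersion.lift (chart F₀ l) _ h2)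
  refine ⟨ψ.hom, ?_⟩
  rw [CommRingCat.ofHom_hom, hψ, IsOpenImmersion.lift_fac]

/-- a morphism from the spectrum of a local ring factors through a chart -/
theorem exists_factor {R : Type} [CommRing R] [IsLocalRing R] (p : Spec (CommRingCat.of R) ⟶ PS F₀ m) :
    ∃ (j : Fin (m + 1)) (φ : A F₀ j →+* R), p = Spec.map (CommRingCat.ofHom φ) ≫ chart F₀ j := by
  obtain ⟨j, hj⟩ := exists_chart (p (IsLocalRing.closedPoint R))
  have h2 : Set.range p ⊆ Set.range (chart F₀ j) := by
    rintro _ ⟨x, rfl⟩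
    have h3 : x ⤳ IsLocalRing.closedPoint R := IsLocalRing.specializes_closedPoint x
    exact (h3.map p.continuous).mem_open (chart F₀ j).opensRange.isOpen hj
  obtain ⟨ψ, hψ⟩ := Spec.map_surjective (IsOpenImmersion.lift (chart F₀ j) _ h2)
  exact ⟨j, ψ.hom, by rw [CommRingCat.ofHom_hom, hψ, IsOpenImmersion.lift_fac]⟩

end Pool.Agent.Work.MP_e97a4d_nt.Sep.PSpace
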