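import Pool.Agent.Work.MP_e97a4d_nt.Sep.CurveM

/-!
Bounded crossing: see the header of `IntM.lean`.

Fix `F`, `S`, `m`. Let `c_j = j + 2`, `j = 0, ..., m * d` (integers), and let
`S'` be `S` together with all places at which one of the nonzero integers `N₀`, `c_j`, `c_j - 1`,
`c_j - c_l` (`j ≠ l`) is not a unit (a finite set). For `x ∈ V(O_S)` with at most `m` points in `V'`
let `x'` be the restriction to `Spec O_{S'}`; it has at most `m` points `p` in `V'` as
`Spec O_{S'} → Spec O_S` is injective (both are localizations of `𝓞 F`, `exists_away`). For every such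
`p`, at most `d` of the residues of the `c_j` are bad (`M.bad` for the residue field of `p`, the
residues being distinct), so some `c_j` is good for all of them; then `mk x' c_j` has range in `W`
(`mem_Wop_iff`, `apply_eq_residue`). The map `x ↦ mk x' c_j` is injective, as `V` is separated and
`O_S → O_{S'}` is injective (`exists_ideal_eq`).
-/

set_option autoImplicit false

noncomputable section

namespace Pool.Agent.Work.MP_e97a4d_nt.Sep

open AlgebraicGeometry CategoryTheory CategoryTheory.Limits IsDedekindDomain NumberField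
open Pool.Agent.Work.MP_e97a4d_nt.Vp

variable {F₀ : Type} [Field F₀] [NumberField F₀] {V V' : Scheme.{0}}

/-- enlarging the set of places such that a given integer becomes a unit -/
private theorem imm_ext (F : Type) [Field F] [NumberField F]
    (S : Finset (HeightOneSpectrum (𝓞 F))) (B : ℕ) (hB : B ≠ 0) :
    ∃ (S' : Finset (HeightOneSpectrum (𝓞 F))) (κ : SInt F S →+* SInt F S'),
      Function.Injective κ ∧ IsUnit (B : SInt F S') ∧ Function.Injective (PrimeSpectrum.comap κ) ∧
      ∀ r : 𝓞 F, κ (algebraMap (𝓞 F) (SInt F S) r) = algebraMap (𝓞 F) (SInt F S') r := by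
  classical
  have hB' : ((B : ℕ) : 𝓞 F) ≠ 0 := Nat.cast_ne_zero.2 hB
  have hI : Ideal.span {((B : ℕ) : 𝓞 F)} ≠ 0 := by
    rw [Ideal.zero_eq_bot, Ne, Ideal.span_singleton_eq_bot]
    exact hB'
  have hfin : {v : HeightOneSpectrum (𝓞 F) | v.asIdeal ∣ Ideal.span {((B : ℕ) : 𝓞 F)}}.Finite :=
    Ideal.finite_factors hI
  let S' : Finset (HeightOneSpectrum (𝓞 F)) := S ∪ hfin.toFinset
  have hle : (S : Set (HeightOneSpectrum (𝓞 F))).integer F ≤
      (S' : Set (HeightOneSpectrum (𝓞 F))).integer F := by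
    intro x hx v hv
    refine hx v (fun h => hv ?_)
    exact Finset.mem_coe.2 (Finset.mem_union_left _ (Finset.mem_coe.1 h))
  let κ : SInt F S →+* SInt F S' := (Subalgebra.inclusion hle).toRingHom
  have hκ : Function.Injective κ := Subalgebra.inclusion_injective hle
  have halg : ∀ r : 𝓞 F, κ (algebraMap (𝓞 F) (SInt F S) r) = algebraMap (𝓞 F) (SInt F S') r :=
    fun r => rfl
  refine ⟨S', κ, hκ, ?_, ?_, halg⟩
  · have hval : ∀ v ∉ S', v.valuation F ((B : ℕ) : F) = 1 := by
      intro v hv
      have e : ((B : ℕ) : F) = algebraMap (𝓞 F) F ((B : ℕ) : 𝓞 F) := by rw [map_natCast]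
      rw [e]
      by_contra hne
      have h2 : v.valuation F (algebraMap (𝓞 F) F ((B : ℕ) : 𝓞 F)) < 1 :=
        lt_of_le_of_ne (v.valuation_le_one _) hne
      rw [HeightOneSpectrum.valuation_lt_one_iff_dvd] at h2
      apply hv
      exact Finset.mem_union_right _ (hfin.mem_toFinset.2 h2)
    have hBF : ((B : ℕ) : F) ≠ 0 := Nat.cast_ne_zero.2 hB
    have hinv : (((B : ℕ) : F)⁻¹) ∈ (S' : Set (HeightOneSpectrum (𝓞 F))).integer F := by
      intro v hv
      rw [map_inv₀, hval v (fun h => hv (Finset.mem_coe.2 h)), inv_one]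
    refine IsUnit.of_mul_eq_one ⟨((B : ℕ) : F)⁻¹, hinv⟩ (Subtype.ext ?_)
    change (((B : ℕ) : SInt F S') : F) * ((B : ℕ) : F)⁻¹ = 1
    have e : (((B : ℕ) : SInt F S') : F) = ((B : ℕ) : F) := by norm_cast
    rw [e]
    exact mul_inv_cancel₀ hBF
  · obtain ⟨a', ha0', ha'⟩ := exists_away F S'
    have h1 : Function.Injective (PrimeSpectrum.comap (algebraMap (𝓞 F) (SInt F S'))) :=
      PrimeSpectrum.localization_comap_injective (SInt F S') (Submonoid.powers a')
    have h2 : algebraMap (𝓞 F) (SInt F S') = κ.comp (algebraMap (𝓞 F) (SInt F S)) :=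
      RingHom.ext (fun r => (halg r).symm)
    intro p q hpq
    apply h1
    rw [h2, PrimeSpectrum.comap_comp_apply, PrimeSpectrum.comap_comp_apply, hpq]

theorem condIIm_of_finPts (π : V ⟶ SpO F₀) [IsSeparated π] (i : V' ⟶ V) [IsClosedImmersion i]
    (M : Moving (i ≫ π)) (h : FinPts ((Wop i M.T).ι ≫ pr V ≫ π)) (m : ℕ) : CondIIm m π i := by
  classical
  rw [finPts_opens] at h
  intro F _ _ _ S
  obtain ⟨S', κ, hκ, hunit, hcomap, halg⟩ := imm_ext F S (M.N₀ * (m * M.d + 2).factorial)
    (mul_ne_zero M.hN₀ (Nat.factorial_ne_zero _))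
  have hfin := h F S'
  have hsep : V.IsSeparated := isSeparated_of_isSeparated π
  have hKinj : ∀ x y : Spec (CommRingCat.of (SInt F S)) ⟶ V,
      Spec.map (CommRingCat.ofHom κ) ≫ x = Spec.map (CommRingCat.ofHom κ) ≫ y → x = y := by
    intro x y hxy
    obtain ⟨J, hJ⟩ := exists_ideal_eq x y
    have h1 := (hJ _ (CommRingCat.ofHom κ)).1 hxy
    have h2 : RingHom.ker (CommRingCat.ofHom κ).hom = ⊥ :=
      (RingHom.injective_iff_ker_eq_bot κ).1 hκ
    rw [h2] at h1
    have h3 := (hJ _ (𝟙 (CommRingCat.of (SInt F S)))).2 (h1.trans bot_le)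
    simpa using h3
  -- units
  have hN₀ : IsUnit (M.N₀ : SInt F S') := by
    rw [Nat.cast_mul] at hunit
    exact isUnit_of_mul_isUnit_left hunit
  have hfac : IsUnit (((m * M.d + 2).factorial : ℕ) : SInt F S') := by
    rw [Nat.cast_mul] at hunit
    exact isUnit_of_mul_isUnit_right hunit
  have hsmall : ∀ a : ℕ, 0 < a → a ≤ m * M.d + 2 → IsUnit (a : SInt F S') := by
    intro a ha ha'
    obtain ⟨b, hb⟩ := Nat.dvd_factorial ha ha'
    rw [hb, Nat.cast_mul] at hfac
    exact isUnit_of_mul_isUnit_left hfac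
  refine Set.Finite.of_finite_image (f := fun x => Spec.map (CommRingCat.ofHom κ) ≫ x)
    ((hfin.image (fun w => w ≫ pr V)).subset ?_) (fun x _ y _ hxy => hKinj x y hxy)
  rintro _ ⟨x, ⟨hx, hxm⟩, rfl⟩
  obtain ⟨x', hx'⟩ : ∃ x', x' = Spec.map (CommRingCat.ofHom κ) ≫ x := ⟨_, rfl⟩
  have hint : x' ∈ integralPoints π F S' := by
    show x' ≫ π = _
    have h1 : x ≫ π = Spec.map (CommRingCat.ofHom (structHom F₀ F S)) := hx
    rw [hx', Category.assoc, h1, ← Spec.map_comp, ← CommRingCat.ofHom_comp]
    have h2 : κ.comp (structHom F₀ F S) = structHom F₀ F S' := RingHom.ext (fun r => halg _)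
    rw [h2]
  -- the crossing points of x'
  have hPfin : {p : PrimeSpectrum (SInt F S') | x' p ∈ Set.range i}.encard ≤ m := by
    refine le_trans ?_ hxm
    refine Set.encard_le_encard_of_injOn
      (f := fun p : PrimeSpectrum (SInt F S') => Spec.map (CommRingCat.ofHom κ) p) ?_ ?_
    · intro p hp
      have e := Scheme.Hom.comp_apply (Spec.map (CommRingCat.ofHom κ)) x p
      rw [← hx'] at e
      show x (Spec.map (CommRingCat.ofHom κ) p) ∈ Set.range i
      rw [← e]
      exact hp
    · intro p _ q _ hpq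
      exact hcomap hpq
  have hPf : {p : PrimeSpectrum (SInt F S') | x' p ∈ Set.range i}.Finite :=
    Set.finite_of_encard_le_coe hPfin
  have hcard : hPf.toFinset.card ≤ m := by
    rw [hPf.encard_eq_coe_toFinset_card] at hPfin
    exact_mod_cast hPfin
  -- for every crossing point, at most d bad values
  have hbad : ∀ p : PrimeSpectrum (SInt F S'), p ∈ hPf.toFinset → ∃ B : Finset ℕ, B.card ≤ M.d ∧ ∀ j ≤ m * M.d, j ∉ B →
      ∀ w' : AL V', alMap i w' = mk x' (((j + 2 : ℕ) : SInt F S')) p → w' ∈ M.T := by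
    intro p hp
    rw [Set.Finite.mem_toFinset] at hp
    have hp' : x' p ∈ Set.range i := hp
    let k := p.asIdeal.ResidueField
    let ρ : SInt F S' →+* k := algebraMap (SInt F S') k
    have hq : ∃ q' : Spec (CommRingCat.of k) ⟶ V', q' ≫ i = Spec.map (CommRingCat.ofHom ρ) ≫ x' := by
      rw [factors_iff_mem_range]
      rw [apply_eq_residue x' p] at hp'
      exact hp'
    obtain ⟨q', hq'⟩ := hq
    have hNk : (M.N₀ : k) ≠ 0 := by
      have := (hN₀.map ρ).ne_zero
      rwa [map_natCast] at this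
    have hb := M.bad k q' hNk
    have hbf : {c : k | mk q' c (⊥ : PrimeSpectrum k) ∉ M.T}.Finite :=
      Set.finite_of_encard_le_coe hb
    have hinj : Set.InjOn (fun j : ℕ => ((j + 2 : ℕ) : k)) {j | j ≤ m * M.d} := by
      have key : ∀ a b : ℕ, a < b → b ≤ m * M.d → ((a + 2 : ℕ) : k) ≠ ((b + 2 : ℕ) : k) := by
        intro a b hab hb heq
        have hu := (hsmall (b - a) (by omega) (by omega)).map ρ
        rw [map_natCast] at hu
        have e : ((b - a : ℕ) : k) = 0 := by
          have e1 : b + 2 = (a + 2) + (b - a) := by omega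
          have e2 : ((b + 2 : ℕ) : k) = ((a + 2 : ℕ) : k) + ((b - a : ℕ) : k) := by
            rw [← Nat.cast_add, ← e1]
          rw [← heq] at e2
          exact add_eq_left.1 e2.symm
        exact hu.ne_zero e
      intro a ha b hb heq
      rcases lt_trichotomy a b with hab | hab | hab
      · exact absurd heq (key a b hab hb)
      · exact hab
      · exact absurd heq.symm (key b a hab ha)
    refine ⟨(Finset.range (m * M.d + 1)).filter
      (fun j => mk q' (((j + 2 : ℕ) : k)) (⊥ : PrimeSpectrum k) ∉ M.T), ?_, ?_⟩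
    · have h1 : ((((Finset.range (m * M.d + 1)).filter
          (fun j => mk q' (((j + 2 : ℕ) : k)) (⊥ : PrimeSpectrum k) ∉ M.T) : Finset ℕ) :
          Set ℕ).encard) ≤ M.d := by
        refine le_trans ?_ hb
        refine Set.encard_le_encard_of_injOn (f := fun j : ℕ => ((j + 2 : ℕ) : k)) ?_ ?_
        · intro j hj
          rw [Finset.mem_coe, Finset.mem_filter] at hj
          exact hj.2
        · refine hinj.mono ?_
          intro j hj
          rw [Finset.mem_coe, Finset.mem_filter, Finset.mem_range] at hj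
          exact Nat.lt_succ_iff.1 hj.1
      rw [Set.encard_coe_eq_coe_finsetCard] at h1
      exact_mod_cast h1
    · intro j hj hjB w' hw'
      have h1 : mk q' (((j + 2 : ℕ) : k)) (⊥ : PrimeSpectrum k) ∈ M.T := by
        by_contra hcon
        apply hjB
        rw [Finset.mem_filter, Finset.mem_range]
        exact ⟨Nat.lt_succ_iff.2 hj, hcon⟩
      have h2 : mk x' (((j + 2 : ℕ) : SInt F S')) p =
          alMap i (mk q' (((j + 2 : ℕ) : k)) (⊥ : PrimeSpectrum k)) := by
        rw [apply_eq_residue (mk x' (((j + 2 : ℕ) : SInt F S'))) p]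
        have h3 : Spec.map (CommRingCat.ofHom ρ) ≫ mk x' (((j + 2 : ℕ) : SInt F S')) =
            mk q' (((j + 2 : ℕ) : k)) ≫ alMap i := by
          rw [comp_mk, mk_alMap, hq', map_natCast]
        have h4 := Scheme.Hom.comp_apply (mk q' (((j + 2 : ℕ) : k))) (alMap i)
          (⊥ : PrimeSpectrum k)
        rw [← h3] at h4
        exact h4
      have h5 : IsClosedImmersion (alMap i) :=
        MorphismProperty.of_isPullback (AffineSpace.isPullback_map i).flip inferInstance
      have h6 : w' = mk q' (((j + 2 : ℕ) : k)) (⊥ : PrimeSpectrum k) := by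
        apply (alMap i).isClosedEmbedding.injective
        rw [← h2]
        exact hw'
      rw [h6]
      exact h1
  choose! Bd hBd1 hBd2 using hbad
  obtain ⟨j, hj, hjB⟩ : ∃ j ≤ m * M.d, j ∉ hPf.toFinset.biUnion Bd := by
    by_contra hcon
    push Not at hcon
    have h1 : Finset.range (m * M.d + 1) ⊆ hPf.toFinset.biUnion Bd := by
      intro j hj
      exact hcon j (Nat.lt_succ_iff.1 (Finset.mem_range.1 hj))
    have h2 := Finset.card_le_card h1
    rw [Finset.card_range] at h2
    have h3 : (hPf.toFinset.biUnion Bd).card ≤ hPf.toFinset.card * M.d :=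
      Finset.card_biUnion_le_card_mul _ _ _ hBd1
    have h4 := Nat.mul_le_mul_right M.d hcard
    omega
  refine ⟨mk x' (((j + 2 : ℕ) : SInt F S')), ⟨?_, ?_⟩, ?_⟩
  · show mk x' (((j + 2 : ℕ) : SInt F S')) ≫ pr V ≫ π = _
    rw [mk_pr_assoc]
    exact hint
  · have hun : Set.range (mk x' (((j + 2 : ℕ) : SInt F S'))) ⊆ unitOpen V := by
      rw [range_unitOpen_iff, crd_mk]
      refine ⟨hsmall _ (by omega) (by omega), ?_⟩
      have e : ((j + 2 : ℕ) : SInt F S') - 1 = ((j + 1 : ℕ) : SInt F S') := by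
        push_cast; ring
      rw [e]
      exact hsmall _ (by omega) (by omega)
    rintro _ ⟨p, rfl⟩
    refine (mem_Wop_iff i M.T _).2 ⟨hun ⟨p, rfl⟩, fun w' hw' => ?_⟩
    have hp : (show PrimeSpectrum (SInt F S') from p) ∈ hPf.toFinset := by
      refine (Set.Finite.mem_toFinset hPf).2 ?_
      show x' p ∈ Set.range i
      refine ⟨pr V' w', ?_⟩
      have e1 := Scheme.Hom.comp_apply (pr V') i w'
      have e2 := Scheme.Hom.comp_apply (alMap i) (pr V) w'
      have e3 : alMap i ≫ pr V = pr V' ≫ i := AffineSpace.map_over i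
      have e4 := Scheme.Hom.comp_apply (mk x' (((j + 2 : ℕ) : SInt F S'))) (pr V) p
      rw [mk_pr] at e4
      rw [e3] at e2
      exact e1.symm.trans (e2.trans ((congrArg (pr V) hw').trans e4.symm))
    exact hBd2 p hp j hj (fun hjp => hjB (Finset.mem_biUnion.2 ⟨p, hp, hjp⟩)) w' hw'
  · show mk x' (((j + 2 : ℕ) : SInt F S')) ≫ pr V = _
    rw [mk_pr, hx']

end Pool.Agent.Work.MP_e97a4d_nt.Sep
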