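import Pool.Agent.Work.MP_e97a4d_nt.Sep.Holo

/-!
Affine space has a moving family. Let `x_j` be the coordinates, `t` the parameter and
`Y(s) = s ^ (n + 1) + ∑_{j < n} x_j s ^ (j + 1)`. The family `T` is the basic open subset of
`AL (AS F₀ n)` of `K = ∏_{i < n} (t + i) Y(t + i) (Y(t + i) - 1)` (a global function).
A point `mk x c` lies in `T` iff `K(x, c)` is invertible.
`bad`: for fixed `x` with values in a field, `K(x, c)` is a monic polynomial in `c` of degree
`d = n (2 n + 3)`; `N₀ = 1`.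
`tame1`: along a holomorphic map into `T ⊓ unitOpen` the parameter `c` omits `0, 1`, hence is
constant; `Y(c + i)` omits `0, 1`, hence is constant; the numbers `c + i` are nonzero and distinct, so
(Vandermonde, `Matrix.det_vandermonde`) `x` is constant.
`tame2`: same with units: `c, c - 1` are units, so finitely many `c`; `Y(c + i)`, `Y(c + i) - 1` are
units, finitely many values; they determine `x`.
-/

set_option autoImplicit false

noncomputable section

namespace Pool.Agent.Work.MP_e97a4d_nt.Sep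

open AlgebraicGeometry CategoryTheory CategoryTheory.Limits IsDedekindDomain NumberField
open Pool.Agent.Work.MP_e97a4d_nt.Vp

/-- Evaluation of global functions along a morphism from an affine scheme. -/
def maEv {Y : Scheme.{0}} {A : CommRingCat.{0}} (w : Spec A ⟶ Y) : Γ(Y, ⊤) →+* A :=
  (Scheme.ΓSpecIso A).hom.hom.comp w.appTop.hom

private theorem maEv_comp {Y : Scheme.{0}} {A B : CommRingCat.{0}} (φ : A ⟶ B) (w : Spec A ⟶ Y)
    (s : Γ(Y, ⊤)) : maEv (Spec.map φ ≫ w) s = φ.hom (maEv w s) := by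
  unfold maEv
  rw [RingHom.comp_apply, RingHom.comp_apply, Scheme.Hom.comp_appTop]
  have h := Scheme.ΓSpecIso_naturality φ
  exact congrArg (fun f => f.hom (w.appTop s)) h

private theorem maEv_comp' {Y Z : Scheme.{0}} {A : CommRingCat.{0}} (w : Spec A ⟶ Y) (q : Y ⟶ Z)
    (s : Γ(Z, ⊤)) : maEv (w ≫ q) s = maEv w (q.appTop s) := by
  unfold maEv
  rw [RingHom.comp_apply, RingHom.comp_apply, Scheme.Hom.comp_appTop]
  rfl

private theorem ma_crd {V : Scheme.{0}} {R : Type} [CommRing R]
    (w : Spec (CommRingCat.of R) ⟶ AL V) : crd w = maEv w (AffineSpace.coord V PUnit.unit) := rfl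

private theorem ma_range {Y : Scheme.{0}} {R : Type} [CommRing R]
    (w : Spec (CommRingCat.of R) ⟶ Y) (f : Γ(Y, ⊤)) :
    Set.range w ⊆ Y.basicOpen f ↔ IsUnit (maEv w f : R) := by
  have h1 : w ⁻¹ᵁ (Y.basicOpen f) = PrimeSpectrum.basicOpen (maEv w f : R) := by
    rw [Scheme.preimage_basicOpen_top, basicOpen_eq_of_affine']
    rfl
  have h2 : Set.range w ⊆ Y.basicOpen f ↔ w ⁻¹ᵁ (Y.basicOpen f) = ⊤ := by
    constructor
    · intro h
      ext p
      exact ⟨fun _ => trivial, fun _ => h ⟨p, rfl⟩⟩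
    · rintro h _ ⟨p, rfl⟩
      have : p ∈ w ⁻¹ᵁ (Y.basicOpen f) := by rw [h]; trivial
      exact this
  rw [h2, h1]
  constructor
  · intro h
    by_contra hn
    obtain ⟨M, hM, hM'⟩ := exists_max_ideal_of_mem_nonunits hn
    have h3 : (⟨M, hM.isPrime⟩ : PrimeSpectrum R) ∈
        PrimeSpectrum.basicOpen (maEv w f : R) := by rw [h]; trivial
    exact h3 hM'
  · intro h
    ext p
    refine ⟨fun _ => trivial, fun _ hp => ?_⟩
    exact p.2.ne_top (Ideal.eq_top_of_isUnit_mem _ hp h)

private theorem ma_mem {Y : Scheme.{0}} {k : Type} [Field k]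
    (w : Spec (CommRingCat.of k) ⟶ Y) (f : Γ(Y, ⊤)) :
    w (⊥ : PrimeSpectrum k) ∈ Y.basicOpen f ↔ (maEv w f : k) ≠ 0 := by
  have h := ma_range w f
  rw [isUnit_iff_ne_zero] at h
  rw [← h]
  constructor
  · rintro h0 _ ⟨p, rfl⟩
    have hp : p = (⊥ : PrimeSpectrum k) := Subsingleton.elim _ _
    rw [hp]; exact h0
  · intro h0
    exact h0 ⟨_, rfl⟩

variable {F₀ : Type} [Field F₀]

private theorem ma_diff {σ : F₀ →+* ℂ} {Y : Scheme.{0}} {π : Y ⟶ SpO F₀}
    {f : ℂ → (Spec (CommRingCat.of ℂ) ⟶ Y)} (hf : IsHolomorphicMap σ π f) (s : Γ(Y, ⊤)) :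
    Differentiable ℂ (fun z => (maEv (f z) s : ℂ)) := by
  intro z
  obtain ⟨A, j, g, D, hj, hD, hz, hfg, hhol⟩ := hf.holo z
  have h1 : ∀ w ∈ D, (maEv (f w) s : ℂ) = g w (maEv j s) := by
    intro w hw
    rw [hfg w hw]
    exact maEv_comp (CommRingCat.ofHom (g w)) j s
  have h5 : DifferentiableAt ℂ (fun w => g w (maEv j s)) z :=
    (hhol (maEv j s)).differentiableAt (hD.mem_nhds hz)
  refine h5.congr_of_eventuallyEq ?_
  filter_upwards [hD.mem_nhds hz] with w hw
  exact h1 w hw

/-! ### the algebra -/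

/-- `Y(s)`. -/
def maY {R : Type} [CommRing R] {n : ℕ} (a : Fin n → R) (s : R) : R :=
  s ^ (n + 1) + ∑ j : Fin n, a j * s ^ ((j : ℕ) + 1)

/-- `K`. -/
def maK {R : Type} [CommRing R] {n : ℕ} (a : Fin n → R) (c : R) : R :=
  ∏ i : Fin n, (c + ((i : ℕ) : R)) * maY a (c + ((i : ℕ) : R)) * (maY a (c + ((i : ℕ) : R)) - 1)

private theorem maY_map {R R' : Type} [CommRing R] [CommRing R'] (φ : R →+* R') {n : ℕ}
    (a : Fin n → R) (s : R) : φ (maY a s) = maY (fun j => φ (a j)) (φ s) := by
  unfold maY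
  rw [map_add, map_pow, map_sum]
  simp only [map_mul, map_pow]

private theorem maK_map {R R' : Type} [CommRing R] [CommRing R'] (φ : R →+* R') {n : ℕ}
    (a : Fin n → R) (c : R) : φ (maK a c) = maK (fun j => φ (a j)) (φ c) := by
  unfold maK
  rw [map_prod]
  simp only [map_mul, map_sub, map_one, maY_map, map_add, map_natCast]

private theorem maY_det {R : Type} [CommRing R] [IsDomain R] [CharZero R] {n : ℕ}
    (a b : Fin n → R) (c : R) (hc : ∀ i : Fin n, c + ((i : ℕ) : R) ≠ 0)
    (h : ∀ i : Fin n, maY a (c + ((i : ℕ) : R)) = maY b (c + ((i : ℕ) : R))) : a = b := by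
  have hinj : Function.Injective (fun i : Fin n => c + ((i : ℕ) : R)) := by
    intro i j hij
    have h1 : ((i : ℕ) : R) = ((j : ℕ) : R) := add_left_cancel hij
    exact Fin.ext (Nat.cast_injective h1)
  have hdet : (Matrix.vandermonde (fun i : Fin n => c + ((i : ℕ) : R))).det ≠ 0 :=
    Matrix.det_vandermonde_ne_zero_iff.2 hinj
  have hz : (Matrix.vandermonde (fun i : Fin n => c + ((i : ℕ) : R))).mulVec (a - b) = 0 := by
    funext i
    have h1 := h i
    unfold maY at h1
    have h2 : ∑ j : Fin n, a j * (c + ((i : ℕ) : R)) ^ ((j : ℕ) + 1) =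
        ∑ j : Fin n, b j * (c + ((i : ℕ) : R)) ^ ((j : ℕ) + 1) := add_left_cancel h1
    have h3 : (c + ((i : ℕ) : R)) * ∑ j : Fin n, (c + ((i : ℕ) : R)) ^ (j : ℕ) * (a j - b j) = 0 := by
      rw [Finset.mul_sum]
      rw [← sub_eq_zero, ← Finset.sum_sub_distrib] at h2
      rw [← h2]
      refine Finset.sum_congr rfl fun j _ => ?_
      ring
    have h4 := (mul_eq_zero.1 h3).resolve_left (hc i)
    show ∑ j, Matrix.vandermonde (fun i : Fin n => c + ((i : ℕ) : R)) i j * (a - b) j = 0
    rw [← h4]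
    refine Finset.sum_congr rfl fun j _ => ?_
    rw [Matrix.vandermonde_apply, Pi.sub_apply]
  have h5 := Matrix.eq_zero_of_mulVec_eq_zero hdet hz
  exact sub_eq_zero.1 h5

private theorem maK_unit {R : Type} [CommRing R] {n : ℕ} {a : Fin n → R} {c : R}
    (h : IsUnit (maK a c)) (i : Fin n) : IsUnit (c + ((i : ℕ) : R)) ∧
      IsUnit (maY a (c + ((i : ℕ) : R))) ∧ IsUnit (maY a (c + ((i : ℕ) : R)) - 1) := by
  have h1 : IsUnit ((c + ((i : ℕ) : R)) * maY a (c + ((i : ℕ) : R)) *
      (maY a (c + ((i : ℕ) : R)) - 1)) :=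
    isUnit_of_dvd_unit (Finset.dvd_prod_of_mem
      (fun i : Fin n => (c + ((i : ℕ) : R)) * maY a (c + ((i : ℕ) : R)) *
        (maY a (c + ((i : ℕ) : R)) - 1)) (Finset.mem_univ i)) h
  have h2 := isUnit_of_mul_isUnit_left h1
  exact ⟨isUnit_of_mul_isUnit_left h2, isUnit_of_mul_isUnit_right h2,
    isUnit_of_mul_isUnit_right h1⟩

private theorem maK_roots {k : Type} [Field k] {n : ℕ} (a : Fin n → k) :
    {c : k | maK a c = 0}.encard ≤ (n * (2 * n + 3) : ℕ) := by
  classical
  let q : Polynomial k := Polynomial.X ^ (n + 1) +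
    ∑ j : Fin n, Polynomial.C (a j) * Polynomial.X ^ ((j : ℕ) + 1)
  have hdeg : (∑ j : Fin n, Polynomial.C (a j) * Polynomial.X ^ ((j : ℕ) + 1)).degree <
      ((n + 1 : ℕ) : WithBot ℕ) := by
    refine (Polynomial.degree_sum_le _ _).trans_lt ?_
    rw [Finset.sup_lt_iff (WithBot.bot_lt_coe _)]
    intro j _
    refine (Polynomial.degree_C_mul_X_pow_le _ _).trans_lt ?_
    have := j.2
    exact_mod_cast (by omega : (j : ℕ) + 1 < n + 1)
  have hq : q.Monic := Polynomial.monic_X_pow_add hdeg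
  have hqn : q.natDegree = n + 1 :=
    Polynomial.natDegree_eq_of_degree_eq_some (by
      show (Polynomial.X ^ (n + 1) + _ : Polynomial k).degree = _
      rw [Polynomial.degree_add_eq_left_of_degree_lt (by rw [Polynomial.degree_X_pow]; exact hdeg),
        Polynomial.degree_X_pow])
  have hq1 : (q - 1).Monic := by
    have : (1 : Polynomial k).degree < q.degree := by
      rw [Polynomial.degree_one, Polynomial.degree_eq_natDegree hq.ne_zero, hqn]
      exact_mod_cast Nat.succ_pos n
    exact hq.sub_of_left this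
  have hq1n : (q - 1).natDegree = n + 1 := by
    rw [← hqn, ← map_one Polynomial.C, Polynomial.natDegree_sub_C]
  let r : Polynomial k := Polynomial.X * q * (q - 1)
  have hr : r.Monic := (Polynomial.monic_X.mul hq).mul hq1
  have hrn : r.natDegree = 2 * n + 3 := by
    have h1 : (Polynomial.X * q).natDegree = 1 + (n + 1) := by
      rw [Polynomial.monic_X.natDegree_mul hq, Polynomial.natDegree_X, hqn]
    rw [(Polynomial.monic_X.mul hq).natDegree_mul hq1, h1, hq1n]
    omega
  let P : Polynomial k := ∏ i : Fin n, r.comp (Polynomial.X + Polynomial.C ((i : ℕ) : k))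
  have hPm : ∀ i : Fin n, (r.comp (Polynomial.X + Polynomial.C (((i : ℕ) : k)))).Monic :=
    fun i => hr.comp_X_add_C _
  have hP0 : P ≠ 0 := (Polynomial.monic_prod_of_monic _ _ (fun i _ => hPm i)).ne_zero
  have hPn : P.natDegree = n * (2 * n + 3) := by
    have h1 := Polynomial.natDegree_prod_of_monic (Finset.univ : Finset (Fin n))
      (fun i => r.comp (Polynomial.X + Polynomial.C (((i : ℕ) : k)))) (fun i _ => hPm i)
    rw [h1]
    have h2 : ∀ i : Fin n, (r.comp (Polynomial.X + Polynomial.C (((i : ℕ) : k)))).natDegree =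
        2 * n + 3 := by
      intro i
      rw [Polynomial.natDegree_comp, Polynomial.natDegree_X_add_C, mul_one, hrn]
    simp only [h2, Finset.sum_const, Finset.card_univ, Fintype.card_fin, smul_eq_mul]
  have hev : ∀ c : k, P.eval c = maK a c := by
    intro c
    have hqe : ∀ s : k, q.eval s = maY a s := by
      intro s
      simp only [q, maY, Polynomial.eval_add, Polynomial.eval_pow, Polynomial.eval_X,
        Polynomial.eval_finsetSum, Polynomial.eval_mul, Polynomial.eval_C]
    unfold maK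
    rw [Polynomial.eval_prod]
    refine Finset.prod_congr rfl fun i _ => ?_
    rw [Polynomial.eval_comp, Polynomial.eval_add, Polynomial.eval_X, Polynomial.eval_C,
      Polynomial.eval_mul, Polynomial.eval_mul, Polynomial.eval_X, Polynomial.eval_sub,
      Polynomial.eval_one, hqe]
  have hsub : {c : k | maK a c = 0} ⊆ (P.roots.toFinset : Set k) := by
    intro c hc
    rw [Finset.mem_coe, Multiset.mem_toFinset, Polynomial.mem_roots hP0, Polynomial.IsRoot.def, hev]
    exact hc
  calc {c : k | maK a c = 0}.encard ≤ (P.roots.toFinset : Set k).encard := Set.encard_le_encard hsub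
    _ = (P.roots.toFinset.card : ℕ∞) := Set.encard_coe_eq_coe_finsetCard _
    _ ≤ ((n * (2 * n + 3) : ℕ) : ℕ∞) := by
        have h1 : P.roots.toFinset.card ≤ n * (2 * n + 3) :=
          (Multiset.toFinset_card_le _).trans ((Polynomial.card_roots' P).trans hPn.le)
        exact_mod_cast h1

/-! ### the family -/

/-- the coordinates of the base point -/
def maA {F₀ : Type} [Field F₀] {n : ℕ} {R : Type} [CommRing R]
    (w : Spec (CommRingCat.of R) ⟶ AL (AS F₀ n)) : Fin n → R :=
  fun j => maEv w ((pr (AS F₀ n)).appTop (AffineSpace.coord (SpO F₀) j))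

/-- the global function `K` -/
def maKg (F₀ : Type) [Field F₀] (n : ℕ) : Γ(AL (AS F₀ n), ⊤) :=
  maK (fun j : Fin n => (pr (AS F₀ n)).appTop (AffineSpace.coord (SpO F₀) j))
    (AffineSpace.coord (AS F₀ n) PUnit.unit)

private theorem ma_evK {n : ℕ} {R : Type} [CommRing R]
    (w : Spec (CommRingCat.of R) ⟶ AL (AS F₀ n)) :
    (maEv w (maKg F₀ n) : R) = maK (maA w) (crd w) := maK_map (maEv w) _ _

private theorem ma_unique {n : ℕ} {R : Type} [CommRing R]
    (w w' : Spec (CommRingCat.of R) ⟶ AL (AS F₀ n))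
    (hs : w ≫ pr (AS F₀ n) ≫ asStr F₀ n = w' ≫ pr (AS F₀ n) ≫ asStr F₀ n)
    (ha : maA w = maA w') (hc : crd w = crd w') : w = w' := by
  have h1 : w ≫ pr (AS F₀ n) = w' ≫ pr (AS F₀ n) := by
    apply AffineSpace.hom_ext
    · rw [Category.assoc, Category.assoc]; exact hs
    · intro j
      have h2 := congrFun ha j
      have h3 : Function.Injective (Scheme.ΓSpecIso (CommRingCat.of R)).hom.hom :=
        (Scheme.ΓSpecIso (CommRingCat.of R)).commRingCatIsoToRingEquiv.injective
      have h4 : (w ≫ pr (AS F₀ n)).appTop (AffineSpace.coord (SpO F₀) j) =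
          w.appTop ((pr (AS F₀ n)).appTop (AffineSpace.coord (SpO F₀) j)) := by
        rw [Scheme.Hom.comp_appTop]; rfl
      have h5 : (w' ≫ pr (AS F₀ n)).appTop (AffineSpace.coord (SpO F₀) j) =
          w'.appTop ((pr (AS F₀ n)).appTop (AffineSpace.coord (SpO F₀) j)) := by
        rw [Scheme.Hom.comp_appTop]; rfl
      rw [h4, h5]
      exact h3 h2
  rw [← mk_crd w, ← mk_crd w', h1, hc]

theorem moving_affineSpace (F₀ : Type) [Field F₀] [NumberField F₀] (hU : UFin) (n : ℕ) :
    Nonempty (Moving (asStr F₀ n)) := by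
  classical
  refine ⟨{ T := (AL (AS F₀ n)).basicOpen (maKg F₀ n), tame1 := ?_, tame2 := ?_,
            d := n * (2 * n + 3), N₀ := 1, hN₀ := one_ne_zero, bad := ?_ }⟩
  · intro σ h hh hT z w
    have hr : ∀ z, IsUnit (maK (maA (h z)) (crd (h z))) ∧ crd (h z) ≠ 0 ∧ crd (h z) ≠ 1 := by
      intro z
      refine ⟨?_, ?_⟩
      · rw [← ma_evK, isUnit_iff_ne_zero, ← ma_mem]
        exact (hT z).1
      · exact (mem_unitOpen_iff (h z)).1 (hT z).2
    have hc : ∀ z w, crd (h z) = crd (h w) :=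
      picard_two (fun z => crd (h z)) (ma_diff hh _) 0 1 zero_ne_one (fun z => (hr z).2)
    have hY : ∀ i : Fin n, ∀ z w, maY (maA (h z)) (crd (h z) + ((i : ℕ) : ℂ)) =
        maY (maA (h w)) (crd (h w) + ((i : ℕ) : ℂ)) := by
      intro i
      refine picard_two (fun z => maY (maA (h z)) (crd (h z) + ((i : ℕ) : ℂ))) ?_ 0 1 zero_ne_one
        (fun z => ?_)
      · have h1 : ∀ j : Fin n, Differentiable ℂ (fun z => maA (h z) j) := fun j => ma_diff hh _
        have h2 : Differentiable ℂ (fun z => crd (h z)) := ma_diff hh _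
        unfold maY
        fun_prop
      · obtain ⟨_, h2, h3⟩ := maK_unit (hr z).1 i
        exact ⟨h2.ne_zero, sub_ne_zero.1 h3.ne_zero⟩
    refine ma_unique _ _ ?_ ?_ (hc z w)
    · rw [hh.structural z, hh.structural w]
    · refine maY_det _ _ (crd (h z)) (fun i => ((maK_unit (hr z).1 i).1).ne_zero) (fun i => ?_)
      rw [hY i z w, hc z w]
  · intro F _ _ _ S
    have hC := hU F S (-1) (by norm_num)
    have e1 : ∀ t : SInt F S, IsUnit (t - 1) → IsUnit (t + ((-1 : ℤ) : SInt F S)) := by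
      intro t ht
      have e : t + ((-1 : ℤ) : SInt F S) = t - 1 := by push_cast; ring
      rw [e]; exact ht
    have hr : ∀ x : Spec (CommRingCat.of (SInt F S)) ⟶ AL (AS F₀ n),
        Set.range x ⊆ (((AL (AS F₀ n)).basicOpen (maKg F₀ n) ⊓ unitOpen (AS F₀ n) :
          (AL (AS F₀ n)).Opens) : Set (AL (AS F₀ n))) →
        IsUnit (maK (maA x) (crd x)) ∧ IsUnit (crd x) ∧ IsUnit (crd x - 1) := by
      intro x hx
      refine ⟨?_, ?_⟩
      · rw [← ma_evK, ← ma_range]
        exact fun v hv => (hx hv).1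
      · rw [← range_unitOpen_iff]
        exact fun v hv => (hx hv).2
    refine Set.Finite.of_finite_image
      (f := fun x : Spec (CommRingCat.of (SInt F S)) ⟶ AL (AS F₀ n) =>
        (crd x, fun i : Fin n => maY (maA x) (crd x + ((i : ℕ) : SInt F S))))
      ((hC.prod (Set.Finite.pi' (fun _ : Fin n => hC))).subset ?_) ?_
    · rintro _ ⟨x, ⟨hx, hxT⟩, rfl⟩
      obtain ⟨h1, h2, h3⟩ := hr x hxT
      refine ⟨⟨h2, e1 _ h3⟩, fun i => ?_⟩
      obtain ⟨_, h5, h6⟩ := maK_unit h1 i
      exact ⟨h5, e1 _ h6⟩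
    · rintro x ⟨hx, hxT⟩ y ⟨hy, hyT⟩ hxy
      have hc : crd x = crd y := congrArg Prod.fst hxy
      have hY : ∀ i : Fin n, maY (maA x) (crd x + ((i : ℕ) : SInt F S)) =
          maY (maA y) (crd y + ((i : ℕ) : SInt F S)) := fun i =>
        congrFun (congrArg Prod.snd hxy) i
      obtain ⟨h1, -, -⟩ := hr x hxT
      refine ma_unique _ _ ?_ ?_ hc
      · exact (show _ = _ from hx).trans (show _ = _ from hy).symm
      · refine maY_det _ _ (crd x) (fun i => ((maK_unit h1 i).1).ne_zero) (fun i => ?_)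
        rw [hY i, hc]
  · intro k _ p _
    have hsub : {c : k | mk p c (⊥ : PrimeSpectrum k) ∉ (AL (AS F₀ n)).basicOpen (maKg F₀ n)} ⊆
        {c : k | maK (fun j => (maEv p (AffineSpace.coord (SpO F₀) j) : k)) c = 0} := by
      intro c hc
      have h1 : ¬ ((maEv (mk p c) (maKg F₀ n) : k) ≠ 0) := fun h => hc ((ma_mem _ _).2 h)
      rw [not_not, ma_evK, crd_mk] at h1
      have h2 : maA (mk p c) = fun j => (maEv p (AffineSpace.coord (SpO F₀) j) : k) := by
        funext j
        show maEv (mk p c) ((pr (AS F₀ n)).appTop (AffineSpace.coord (SpO F₀) j)) = _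
        rw [← maEv_comp', mk_pr]
      rw [h2] at h1
      exact h1
    exact (Set.encard_le_encard hsub).trans (maK_roots _)

end Pool.Agent.Work.MP_e97a4d_nt.Sep
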