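import Pool.Agent.Work.MP_e97a4d_nt.Sep.Holo

/-!
Moving families pull back along jointly monic pairs of morphisms:
`T = (alMap j₁)⁻¹ T₁ ⊓ (alMap j₂)⁻¹ T₂`, `d = d₁ + d₂`, `N₀ = N₁ * N₂`.
A holomorphic map `h` into `T ⊓ unitOpen` gives holomorphic maps `h ≫ alMap j₁`, `h ≫ alMap j₂`
(`holo_comp`), which are constant; since `h z = mk (h z ≫ pr X) (crd (h z))` and
`mk x c ≫ alMap j = mk (x ≫ j) c`, the map `h` is constant. Same argument for integral points.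
-/

set_option autoImplicit false

noncomputable section

namespace Pool.Agent.Work.MP_e97a4d_nt.Sep

open AlgebraicGeometry CategoryTheory CategoryTheory.Limits IsDedekindDomain NumberField
open Pool.Agent.Work.MP_e97a4d_nt.Vp

variable {F₀ : Type} [Field F₀]

private theorem mo_alMap_pr {X Y : Scheme.{0}} (j : X ⟶ Y) : alMap j ≫ pr Y = pr X ≫ j :=
  AffineSpace.map_over j

private theorem mo_str {X Y : Scheme.{0}} {ρ : X ⟶ SpO F₀} {ρ' : Y ⟶ SpO F₀} (j : X ⟶ Y)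
    (h : j ≫ ρ' = ρ) : alMap j ≫ pr Y ≫ ρ' = pr X ≫ ρ := by
  rw [← Category.assoc, mo_alMap_pr, Category.assoc, h]

private theorem mo_range {X Y : Scheme.{0}} {R : Type} [CommRing R] (j : X ⟶ Y)
    (w : Spec (CommRingCat.of R) ⟶ AL X) (T : (AL X).Opens) (T' : (AL Y).Opens)
    (hT : T ≤ (alMap j) ⁻¹ᵁ T') (hw : Set.range w ⊆ ((T ⊓ unitOpen X : (AL X).Opens) : Set (AL X))) :
    Set.range (w ≫ alMap j) ⊆ ((T' ⊓ unitOpen Y : (AL Y).Opens) : Set (AL Y)) := by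
  have h1 : Set.range (w ≫ alMap j) ⊆ ((T' : (AL Y).Opens) : Set (AL Y)) := by
    rintro _ ⟨v, rfl⟩
    rw [Scheme.Hom.comp_apply]
    exact hT (hw ⟨v, rfl⟩).1
  have h2 : Set.range (w ≫ alMap j) ⊆ unitOpen Y := by
    rw [range_unitOpen_iff, crd_alMap, ← range_unitOpen_iff]
    intro v hv
    exact (hw hv).2
  intro v hv
  exact ⟨h1 hv, h2 hv⟩

private theorem mo_eq {X Y₁ Y₂ : Scheme.{0}} (j₁ : X ⟶ Y₁) (j₂ : X ⟶ Y₂)
    (hmono : ∀ (Z : Scheme.{0}) (a b : Z ⟶ X), a ≫ j₁ = b ≫ j₁ → a ≫ j₂ = b ≫ j₂ → a = b)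
    {R : Type} [CommRing R] (w w' : Spec (CommRingCat.of R) ⟶ AL X)
    (h₁ : w ≫ alMap j₁ = w' ≫ alMap j₁) (h₂ : w ≫ alMap j₂ = w' ≫ alMap j₂) : w = w' := by
  have hc : crd w = crd w' := by rw [← crd_alMap j₁ w, h₁, crd_alMap]
  have e : ∀ {Y : Scheme.{0}} (j : X ⟶ Y), w ≫ alMap j = w' ≫ alMap j →
      (w ≫ pr X) ≫ j = (w' ≫ pr X) ≫ j := by
    intro Y j h
    rw [Category.assoc, ← mo_alMap_pr, ← Category.assoc, h, Category.assoc, mo_alMap_pr,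
      Category.assoc]
  have hp : w ≫ pr X = w' ≫ pr X := hmono _ _ _ (e j₁ h₁) (e j₂ h₂)
  rw [← mk_crd w, ← mk_crd w', hp, hc]

theorem moving_of_jointly_monic {X Y₁ Y₂ : Scheme.{0}} {ρ : X ⟶ SpO F₀} {ρ₁ : Y₁ ⟶ SpO F₀}
    {ρ₂ : Y₂ ⟶ SpO F₀} (j₁ : X ⟶ Y₁) (j₂ : X ⟶ Y₂) (h₁ : j₁ ≫ ρ₁ = ρ) (h₂ : j₂ ≫ ρ₂ = ρ)
    (hmono : ∀ (Z : Scheme.{0}) (a b : Z ⟶ X), a ≫ j₁ = b ≫ j₁ → a ≫ j₂ = b ≫ j₂ → a = b)
    (M₁ : Moving ρ₁) (M₂ : Moving ρ₂) : Nonempty (Moving ρ) := by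
  let T : (AL X).Opens := (alMap j₁) ⁻¹ᵁ M₁.T ⊓ (alMap j₂) ⁻¹ᵁ M₂.T
  have hT₁ : T ≤ (alMap j₁) ⁻¹ᵁ M₁.T := inf_le_left
  have hT₂ : T ≤ (alMap j₂) ⁻¹ᵁ M₂.T := inf_le_right
  refine ⟨{ T := T, tame1 := ?_, tame2 := ?_, d := M₁.d + M₂.d, N₀ := M₁.N₀ * M₂.N₀,
            hN₀ := mul_ne_zero M₁.hN₀ M₂.hN₀, bad := ?_ }⟩
  · intro σ h hh hhT z w
    have hr : ∀ z, Set.range (h z) ⊆ ((T ⊓ unitOpen X : (AL X).Opens) : Set (AL X)) := by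
      intro z
      rw [range_eq]
      rintro _ rfl
      exact hhT z
    have e₁ : h z ≫ alMap j₁ = h w ≫ alMap j₁ := by
      refine M₁.tame1 σ (fun z => h z ≫ alMap j₁) (holo_comp _ ?_) (fun z => ?_) z w
      · rw [mo_str j₁ h₁]; exact hh
      · exact mo_range j₁ (h z) T M₁.T hT₁ (hr z) ⟨_, rfl⟩
    have e₂ : h z ≫ alMap j₂ = h w ≫ alMap j₂ := by
      refine M₂.tame1 σ (fun z => h z ≫ alMap j₂) (holo_comp _ ?_) (fun z => ?_) z w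
      · rw [mo_str j₂ h₂]; exact hh
      · exact mo_range j₂ (h z) T M₂.T hT₂ (hr z) ⟨_, rfl⟩
    exact mo_eq j₁ j₂ hmono _ _ e₁ e₂
  · intro F _ _ _ S
    have f₁ := M₁.tame2 F S
    have f₂ := M₂.tame2 F S
    refine Set.Finite.of_finite_image
      (f := fun x : Spec (CommRingCat.of (SInt F S)) ⟶ AL X => (x ≫ alMap j₁, x ≫ alMap j₂))
      ((f₁.prod f₂).subset ?_) ?_
    · rintro _ ⟨x, ⟨hx, hxT⟩, rfl⟩
      refine ⟨⟨?_, mo_range j₁ x T M₁.T hT₁ hxT⟩, ⟨?_, mo_range j₂ x T M₂.T hT₂ hxT⟩⟩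
      · show (x ≫ alMap j₁) ≫ pr Y₁ ≫ ρ₁ = _
        rw [Category.assoc, mo_str j₁ h₁]
        exact hx
      · show (x ≫ alMap j₂) ≫ pr Y₂ ≫ ρ₂ = _
        rw [Category.assoc, mo_str j₂ h₂]
        exact hx
    · intro x _ y _ hxy
      exact mo_eq j₁ j₂ hmono _ _ (congrArg Prod.fst hxy) (congrArg Prod.snd hxy)
  · intro k _ p hN
    have hN₁ : (M₁.N₀ : k) ≠ 0 := by
      intro h
      apply hN
      rw [Nat.cast_mul, h, zero_mul]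
    have hN₂ : (M₂.N₀ : k) ≠ 0 := by
      intro h
      apply hN
      rw [Nat.cast_mul, h, mul_zero]
    have hsub : {c : k | mk p c (⊥ : PrimeSpectrum k) ∉ T} ⊆
        {c : k | mk (p ≫ j₁) c (⊥ : PrimeSpectrum k) ∉ M₁.T} ∪
        {c : k | mk (p ≫ j₂) c (⊥ : PrimeSpectrum k) ∉ M₂.T} := by
      intro c hc
      by_contra hcon
      rw [Set.mem_union, not_or] at hcon
      obtain ⟨a₁, a₂⟩ := hcon
      rw [Set.mem_ofPred_eq, not_not] at a₁ a₂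
      apply hc
      constructor
      · have e := Scheme.Hom.comp_apply (mk p c) (alMap j₁) (⊥ : PrimeSpectrum k)
        rw [mk_alMap] at e
        have e' : alMap j₁ (mk p c (⊥ : PrimeSpectrum k)) ∈ M₁.T := e ▸ a₁
        exact e'
      · have e := Scheme.Hom.comp_apply (mk p c) (alMap j₂) (⊥ : PrimeSpectrum k)
        rw [mk_alMap] at e
        have e' : alMap j₂ (mk p c (⊥ : PrimeSpectrum k)) ∈ M₂.T := e ▸ a₂
        exact e'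
    calc {c : k | mk p c (⊥ : PrimeSpectrum k) ∉ T}.encard ≤ _ := Set.encard_le_encard hsub
      _ ≤ _ := Set.encard_union_le _ _
      _ ≤ (M₁.d : ℕ∞) + M₂.d := add_le_add (M₁.bad k _ hN₁) (M₂.bad k _ hN₂)
      _ = ((M₁.d + M₂.d : ℕ) : ℕ∞) := by push_cast; rfl

end Pool.Agent.Work.MP_e97a4d_nt.Sep
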