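import Pool.Agent.Work.MP_e97a4d_nt.Sep.Holo

/-!
A quasi-affine scheme can be replaced by an open subscheme of an affine space.
Let `ψ : V → AS F₀ n` be an immersion, closed in the open subscheme `O` of `AS F₀ n`, and let
`P_1, ..., P_r` be polynomials with zero set the closure of the image of `V` (`𝓞 F₀[x]` is
noetherian). Let `U ⊆ O` be the open subset on which `e - 1` and `e + 1` are invertible for all
`e` among the `P_l` and the `x_j P_l`. Points of `U` with values in `ℂ` (resp. `O_S`): the
functions `P_l`, `x_j P_l` along an entire curve are constant (resp. take finitely many values); if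
some `P_l` is not zero, all `x_j = (x_j P_l) / P_l` are constant (resp. take finitely many values);
otherwise the curve (resp. the integral point) lies in the image of `V` and lifts to `V`. Conversely
a point of `V` maps to `U`.
-/

set_option autoImplicit false
set_option linter.unusedSectionVars false

noncomputable section

namespace Pool.Agent.Work.MP_e97a4d_nt.Sep

open AlgebraicGeometry CategoryTheory CategoryTheory.Limits IsDedekindDomain NumberField
open Pool.Agent.Work.MP_e97a4d_nt.Vp

variable {F₀ : Type} [Field F₀] [NumberField F₀] {V : Scheme.{0}} {π : V ⟶ SpO F₀}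

/-- the coordinate ring of affine space -/
abbrev PolyR (F₀ : Type) [Field F₀] (n : ℕ) : Type := MvPolynomial (Fin n) (𝓞 F₀)

/-- affine space as a spectrum. -/
def spI (F₀ : Type) [Field F₀] (n : ℕ) : Spec (CommRingCat.of (PolyR F₀ n)) ⟶ AS F₀ n :=
  (AffineSpace.SpecIso (Fin n) (CommRingCat.of (𝓞 F₀))).inv

instance (n : ℕ) : IsIso (spI F₀ n) := by unfold spI; infer_instance

omit [NumberField F₀] in
theorem spI_str (n : ℕ) : spI F₀ n ≫ asStr F₀ n = Spec.map (CommRingCat.ofHom MvPolynomial.C) :=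
  AffineSpace.SpecIso_inv_over _

omit [NumberField F₀] in
/-- holomorphic maps lift to open subschemes. -/
theorem holo_lift_opens_openA {X : Scheme.{0}} {ρ : X ⟶ SpO F₀} {σ : F₀ →+* ℂ}
    {f : ℂ → (Spec (CommRingCat.of ℂ) ⟶ X)} (hf : IsHolomorphicMap σ ρ f) (O : X.Opens)
    (h : ∀ z, pt (f z) ∈ O) :
    IsHolomorphicMap σ (O.ι ≫ ρ) (fun z => lft O (f z) (range_sub (h z))) where
  structural z := by
    rw [lft_ι_assoc]; exact hf.structural z
  holo z := by
    obtain ⟨A, j, g, D, hj, hD, hzD, hfg, hhol, hjO⟩ := exists_chart_in hf z O (h z)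
    let j' : Spec A ⟶ O.toScheme := lft O j hjO
    have hj' : IsOpenImmersion j' := by
      have h3 : IsOpenImmersion (j' ≫ O.ι) := by rw [lft_ι]; exact hj
      exact IsOpenImmersion.of_comp j' O.ι
    refine ⟨A, j', g, D, hj', hD, hzD, ?_, hhol⟩
    intro w hw
    symm
    apply lft_unique
    rw [Category.assoc, lft_ι, hfg w hw]

/-- lifting of points to a locally closed subscheme. -/
theorem exists_lift_imm {X V : Scheme.{0}} (ψ : V ⟶ X) [IsImmersion ψ] {R : Type} [CommRing R]
    [IsDomain R] (x : Spec (CommRingCat.of R) ⟶ X) (hx : Set.range x ⊆ ψ.coborderRange)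
    (h : x (⊥ : PrimeSpectrum R) ∈ Set.range ψ) :
    ∃ y : Spec (CommRingCat.of R) ⟶ V, y ≫ ψ.liftCoborder = lft ψ.coborderRange x hx := by
  rw [factors_iff_generic]
  obtain ⟨v, hv⟩ := h
  refine ⟨v, ?_⟩
  apply ψ.coborderRange.ι.isOpenEmbedding.injective
  rw [← Scheme.Hom.comp_apply, ← Scheme.Hom.comp_apply, ψ.liftCoborder_ι, lft_ι, hv]

/-- a point in the open subset `b ≠ 0`. -/
theorem isUnit_of_range {A R : Type} [CommRing A] [CommRing R] {X : Scheme.{0}}
    (j : Spec (CommRingCat.of A) ⟶ X) (b : A) (φ : A →+* R) (U : X.Opens)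
    (hU : ∀ p : PrimeSpectrum A, j p ∈ U → b ∉ p.asIdeal)
    (h : Set.range (Spec.map (CommRingCat.ofHom φ) ≫ j) ⊆ U) : IsUnit (φ b) := by
  by_contra hnu
  obtain ⟨M, hM, hbM⟩ := exists_max_ideal_of_mem_nonunits hnu
  let P : PrimeSpectrum R := ⟨M, hM.isPrime⟩
  have h1 : (Spec.map (CommRingCat.ofHom φ) ≫ j) P ∈ U := h ⟨P, rfl⟩
  exact hU (PrimeSpectrum.comap φ P) h1 hbM

/-- all polynomial functions are determined by the values at the coordinates. -/
theorem poly_hom_ext {n : ℕ} {R : Type} [CommRing R] {φ ψ : PolyR F₀ n →+* R}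
    (h : φ.comp MvPolynomial.C = ψ.comp MvPolynomial.C)
    (h' : ∀ i, φ (MvPolynomial.X i) = ψ (MvPolynomial.X i)) : φ = ψ :=
  MvPolynomial.ringHom_ext (fun r => RingHom.congr_fun h r) h'

theorem exists_open_affineSpace (hU : UFin) (n : ℕ) (ψ : V ⟶ AS F₀ n) [IsImmersion ψ]
    (hψ : ψ ≫ asStr F₀ n = π) :
    ∃ U : (AS F₀ n).Opens, (∀ σ : F₀ →+* ℂ, NoCurve σ π ↔ NoCurve σ (U.ι ≫ asStr F₀ n)) ∧
      (FinPts π ↔ FinPts (U.ι ≫ asStr F₀ n)) := by
  classical
  let j : Spec (CommRingCat.of (PolyR F₀ n)) ⟶ AS F₀ n := spI F₀ n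
  have hjstr : j ≫ asStr F₀ n = Spec.map (CommRingCat.ofHom MvPolynomial.C) := spI_str n
  have hjsurj : ∀ v : AS F₀ n, ∃ p : PrimeSpectrum (PolyR F₀ n), j p = v := fun v =>
    j.surjective v
  -- the ideal of the closure
  let Z : Set (PrimeSpectrum (PolyR F₀ n)) := {p | j p ∈ Set.range ψ}
  let I : Ideal (PolyR F₀ n) := PrimeSpectrum.vanishingIdeal Z
  obtain ⟨G, hG⟩ : I.FG := IsNoetherian.noetherian I
  let T : Finset (PolyR F₀ n) := G ∪ (Finset.univ ×ˢ G).image
    (fun q : Fin n × PolyR F₀ n => MvPolynomial.X q.1 * q.2)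
  have hGI : ∀ g ∈ G, g ∈ I := fun g hg => by rw [← hG]; exact Ideal.subset_span hg
  have hTI : ∀ e ∈ T, e ∈ I := by
    intro e he
    rcases Finset.mem_union.1 he with he | he
    · exact hGI e he
    · obtain ⟨q, hq, rfl⟩ := Finset.mem_image.1 he
      exact I.mul_mem_left _ (hGI _ (Finset.mem_product.1 hq).2)
  have hTG : ∀ g ∈ G, g ∈ T := fun g hg => Finset.mem_union_left _ hg
  have hTX : ∀ g ∈ G, ∀ i, MvPolynomial.X i * g ∈ T := fun g hg i =>
    Finset.mem_union_right _ (Finset.mem_image.2 ⟨(i, g), Finset.mem_product.2 ⟨Finset.mem_univ _, hg⟩, rfl⟩)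
  let b : PolyR F₀ n := ∏ e ∈ T, (e - 1) * (e + 1)
  have hdvd : ∀ e ∈ T, (e - 1) * (e + 1) ∣ b := fun e he => Finset.dvd_prod_of_mem _ he
  let U : (AS F₀ n).Opens := ψ.coborderRange ⊓ j ''ᵁ (PrimeSpectrum.basicOpen b)
  have hUb : ∀ p : PrimeSpectrum (PolyR F₀ n), j p ∈ U → b ∉ p.asIdeal := by
    rintro p ⟨-, p', hp', h⟩
    have h1 : p' = p := j.isOpenEmbedding.injective h
    rw [← h1]; exact hp'
  have hUO : (U : Set (AS F₀ n)) ⊆ ψ.coborderRange := fun x hx => hx.1
  -- the image of `V` lies in `U`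
  have hVU : ∀ v : V, ψ v ∈ U := by
    intro v
    obtain ⟨p, hp⟩ := hjsurj (ψ v)
    refine ⟨subset_coborder ⟨v, rfl⟩, p, ?_, hp⟩
    show b ∉ p.asIdeal
    intro hb
    have hIp : I ≤ p.asIdeal := by
      intro a ha
      exact (PrimeSpectrum.mem_vanishingIdeal _ _).1 ha p ⟨v, hp.symm⟩
    have hprime : p.asIdeal.IsPrime := p.2
    obtain ⟨e, he, hep⟩ := (Ideal.IsPrime.prod_mem_iff (p := p.asIdeal)).1 hb
    have he' := hIp (hTI e he)
    apply hprime.ne_top
    rw [Ideal.eq_top_iff_one]
    rcases hprime.mem_or_mem hep with h | h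
    · have := p.asIdeal.sub_mem he' h
      simpa using this
    · have := p.asIdeal.sub_mem h he'
      simpa using this
  -- points in the closure and in `O` are in the image
  have hcl : ∀ p : PrimeSpectrum (PolyR F₀ n), (∀ g ∈ G, g ∈ p.asIdeal) → j p ∈ U →
      j p ∈ Set.range ψ := by
    intro p hp hpU
    have hIp : I ≤ p.asIdeal := by rw [← hG]; exact Ideal.span_le.2 hp
    have h1 : p ∈ closure Z := by
      rw [← PrimeSpectrum.zeroLocus_vanishingIdeal_eq_closure]
      exact hIp
    have h2 : j p ∈ closure (Set.range ψ) := by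
      have h3 : j p ∈ closure (j '' Z) := image_closure_subset_closure_image j.continuous ⟨p, h1, rfl⟩
      refine closure_mono ?_ h3
      rintro _ ⟨q, hq, rfl⟩
      exact hq
    by_contra h4
    exact (hUO hpU : j p ∈ (closure (Set.range ψ) \ Set.range ψ)ᶜ) ⟨h2, h4⟩
  -- units
  have hunits : ∀ {R : Type} [CommRing R] (φ : PolyR F₀ n →+* R), IsUnit (φ b) →
      ∀ e ∈ T, IsUnit (φ e - 1) ∧ IsUnit (φ e + 1) := by
    intro R _ φ hφ e he
    obtain ⟨c, hc⟩ := hdvd e he
    rw [hc, map_mul, map_mul, map_sub, map_add, map_one] at hφ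
    have h1 := isUnit_of_mul_isUnit_left hφ
    exact ⟨isUnit_of_mul_isUnit_left h1, isUnit_of_mul_isUnit_right h1⟩
  refine ⟨U, fun σ => ?_, ?_⟩
  · rw [noCurve_opens]
    constructor
    · intro hno g hg hgU z w
      obtain ⟨φ, hφ, hdiff⟩ := exists_coords hg j (fun z => hjsurj _)
      have hφb : ∀ z, IsUnit (φ z b) := fun z => isUnit_of_range j b (φ z) U hUb (by
        rw [← hφ z]; exact range_sub (hgU z))
      have hconst : ∀ e ∈ T, ∀ z w, φ z e = φ w e := by
        intro e he z w
        refine picard_two (fun z => φ z e) (hdiff e) 1 (-1) (by norm_num) (fun z => ?_) z w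
        obtain ⟨h1, h2⟩ := hunits (φ z) (hφb z) e he
        constructor
        · intro h0; exact h1.ne_zero (by rw [h0]; ring)
        · intro h0; exact h2.ne_zero (by rw [h0]; ring)
      have hstr : ∀ z, (φ z).comp MvPolynomial.C = σ.comp (algebraMap (𝓞 F₀) F₀) := by
        intro z
        have h1 := hg.structural z
        rw [hφ z, Category.assoc, hjstr, ← Spec.map_comp] at h1
        exact congrArg CommRingCat.Hom.hom (Spec.map_injective h1)
      by_cases hG0 : ∀ e ∈ G, ∀ z, φ z e = 0
      · -- the curve lies in the image of `V`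
        have hrange : ∀ z, g z (⊥ : PrimeSpectrum ℂ) ∈ Set.range ψ := by
          intro z
          have h1 := hgU z
          rw [hφ z] at h1 ⊢
          exact hcl (PrimeSpectrum.comap (φ z) ⊥) (fun e he => by
            show φ z e ∈ (⊥ : Ideal ℂ)
            rw [hG0 e he z]; exact zero_mem _) h1
        have hgO : ∀ z, pt (g z) ∈ ψ.coborderRange := fun z => hUO (hgU z)
        choose f hf using fun z => exists_lift_imm ψ (g z) (range_sub (hgO z)) (hrange z)
        have hholo := holo_lift_closed ψ.liftCoborder (holo_lift_opens_openA hg ψ.coborderRange hgO) f hf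
        have hπ : ψ.liftCoborder ≫ ψ.coborderRange.ι ≫ asStr F₀ n = π := by
          rw [← Category.assoc, ψ.liftCoborder_ι, hψ]
        rw [hπ] at hholo
        have hfc : f z = f w := by
          by_contra hne
          exact hno f ⟨hholo, z, w, hne⟩
        have h1 : ∀ z, f z ≫ ψ = g z := by
          intro z
          rw [← ψ.liftCoborder_ι, ← Category.assoc, hf z, lft_ι]
        rw [← h1 z, ← h1 w, hfc]
      · push Not at hG0
        obtain ⟨e, he, z₀, hz₀⟩ := hG0
        have hne : ∀ z, φ z e ≠ 0 := fun z => by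
          rw [hconst e (hTG e he) z z₀]; exact hz₀
        have h3 : φ z = φ w := by
          refine poly_hom_ext (by rw [hstr, hstr]) fun i => ?_
          have h4 := hconst _ (hTX e he i) z w
          rw [map_mul, map_mul, hconst e (hTG e he) z w] at h4
          exact mul_right_cancel₀ (hne w) h4
        rw [hφ z, hφ w, h3]
    · rintro ht f ⟨hf, z, w, hne⟩
      apply hne
      subst hψ
      have h1 : IsHolomorphicMap σ (asStr F₀ n) (fun z => f z ≫ ψ) := holo_comp ψ hf
      have h2 := ht _ h1 (fun z => hVU _) z w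
      rwa [cancel_mono] at h2
  · rw [finPts_opens]
    constructor
    · intro hfin F _ _ _ S
      let E : Set (SInt F S) := {t | IsUnit (t - 1) ∧ IsUnit (t + 1)}
      have hE : E.Finite := by
        refine Set.Finite.of_finite_image (f := fun t : SInt F S => t - 1)
          ((hU F S 2 two_ne_zero).subset ?_) (sub_left_injective.injOn)
        rintro _ ⟨t, ht, rfl⟩
        refine ⟨ht.1, ?_⟩
        have : t - 1 + ((2 : ℤ) : SInt F S) = t + 1 := by push_cast; ring
        rw [this]; exact ht.2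
      let H : Set (PolyR F₀ n →+* SInt F S) := {φ | φ.comp MvPolynomial.C = structHom F₀ F S ∧
        (∀ e ∈ T, φ e ∈ E) ∧ ∃ g ∈ G, φ g ≠ 0}
      have hH : H.Finite := by
        refine Set.Finite.of_finite_image (f := fun φ (a : T) => φ (a : PolyR F₀ n))
          ((Set.Finite.pi' (fun _ : T => hE)).subset ?_) ?_
        · rintro _ ⟨φ, hφ, rfl⟩ a
          exact hφ.2.1 a a.2
        · rintro φ hφ χ hχ h
          have hT : ∀ e ∈ T, φ e = χ e := fun e he => congrFun h ⟨e, he⟩
          refine poly_hom_ext (by rw [hφ.1, hχ.1]) fun i => ?_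
          obtain ⟨g, hg, hg0⟩ := hφ.2.2
          have h4 := hT _ (hTX g hg i)
          rw [map_mul, map_mul, ← hT g (hTG g hg)] at h4
          exact mul_right_cancel₀ hg0 h4
      refine ((hH.image (fun φ => Spec.map (CommRingCat.ofHom φ) ≫ j)).union
        ((hfin F S).image (fun y => y ≫ ψ))).subset ?_
      rintro x ⟨hx, hxU⟩
      obtain ⟨θ, hθ⟩ := Spec.map_surjective (x ≫ inv j)
      have hx' : x = Spec.map (CommRingCat.ofHom θ.hom) ≫ j := by
        rw [CommRingCat.ofHom_hom, hθ, Category.assoc, IsIso.inv_hom_id, Category.comp_id]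
      by_cases hG0 : ∀ g ∈ G, θ.hom g = 0
      · right
        have hrange : x (⊥ : PrimeSpectrum (SInt F S)) ∈ Set.range ψ := by
          have h1 : x (⊥ : PrimeSpectrum (SInt F S)) ∈ U := hxU ⟨_, rfl⟩
          rw [hx'] at h1 ⊢
          exact hcl (PrimeSpectrum.comap θ.hom ⊥) (fun e he => by
            show θ.hom e ∈ (⊥ : Ideal (SInt F S))
            rw [hG0 e he]; exact zero_mem _) h1
        obtain ⟨y, hy⟩ := exists_lift_imm ψ x (hxU.trans hUO) hrange
        have h1 : y ≫ ψ = x := by
          rw [← ψ.liftCoborder_ι, ← Category.assoc, hy, lft_ι]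
        refine ⟨y, ?_, h1⟩
        show y ≫ π = _
        rw [← hψ, ← Category.assoc, h1]
        exact hx
      · left
        push Not at hG0
        refine ⟨θ.hom, ⟨?_, ?_, hG0⟩, hx'.symm⟩
        · have h1 : x ≫ asStr F₀ n = Spec.map (CommRingCat.ofHom (structHom F₀ F S)) := hx
          rw [hx', Category.assoc, hjstr, ← Spec.map_comp] at h1
          exact congrArg CommRingCat.Hom.hom (Spec.map_injective h1)
        · intro e he
          exact hunits θ.hom (isUnit_of_range j b θ.hom U hUb (by rw [← hx']; exact hxU)) e he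
    · intro ht F _ _ _ S
      refine Set.Finite.of_finite_image (f := fun y => y ≫ ψ) ((ht F S).subset ?_) ?_
      · rintro _ ⟨y, hy, rfl⟩
        refine ⟨?_, ?_⟩
        · show (y ≫ ψ) ≫ asStr F₀ n = _
          rw [Category.assoc, hψ]
          exact hy
        · rintro _ ⟨p, rfl⟩
          rw [Scheme.Hom.comp_apply]
          exact hVU _
      · intro y _ y' _ h
        exact (cancel_mono ψ).1 h

end Pool.Agent.Work.MP_e97a4d_nt.Sep
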