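import Pool.Agent.Work.MP_e97a4d_nt.Sep.Line

/-!
The classes of quasi-projective and of quasi-affine schemes are stable under closed subschemes and
under passing to open subschemes of the affine line.
For `IsQP.line`: use `φ' = (O.ι ≫ pr V) ≫ φ` and `ψ' : O → AS F₀ (n + 1)` with coordinates those of
`ψ` and the coordinate `t`. Same for `IsQA.line` (composition of the open immersion `O.ι`, the
immersion `alMap ψ : AL V → AL (AS F₀ n)` and the isomorphism of `AL (AS F₀ n)` with
`AS F₀ (n + 1)`).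
-/

set_option autoImplicit false
set_option linter.unusedSectionVars false

noncomputable section

namespace Pool.Agent.Work.MP_e97a4d_nt.Sep

open AlgebraicGeometry CategoryTheory CategoryTheory.Limits IsDedekindDomain NumberField
open Pool.Agent.Work.MP_e97a4d_nt.Vp

variable {F₀ : Type} [Field F₀] [NumberField F₀] {V V' : Scheme.{0}} {π : V ⟶ SpO F₀}

/-- the morphism `X → AS F₀ (n + 1)` with first coordinate `t` and the other coordinates those of `ψ`. -/
def consMap {X : Scheme.{0}} {n : ℕ} (ψ : X ⟶ AS F₀ n) (t : Γ(X, ⊤)) : X ⟶ AS F₀ (n + 1) :=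
  AffineSpace.homOfVector (ψ ≫ asStr F₀ n)
    (Fin.cons t (fun j => ψ.appTop (AffineSpace.coord (SpO F₀) j)))

omit [NumberField F₀] in
theorem consMap_str {X : Scheme.{0}} {n : ℕ} (ψ : X ⟶ AS F₀ n) (t : Γ(X, ⊤)) :
    consMap ψ t ≫ asStr F₀ (n + 1) = ψ ≫ asStr F₀ n := AffineSpace.homOfVector_over _ _

omit [NumberField F₀] in
theorem consMap_zero {X : Scheme.{0}} {n : ℕ} (ψ : X ⟶ AS F₀ n) (t : Γ(X, ⊤)) :
    (consMap ψ t).appTop (AffineSpace.coord (SpO F₀) 0) = t := by
  unfold consMap
  rw [AffineSpace.homOfVector_appTop_coord]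
  rfl

omit [NumberField F₀] in
theorem consMap_succ {X : Scheme.{0}} {n : ℕ} (ψ : X ⟶ AS F₀ n) (t : Γ(X, ⊤)) (j : Fin n) :
    (consMap ψ t).appTop (AffineSpace.coord (SpO F₀) j.succ) =
      ψ.appTop (AffineSpace.coord (SpO F₀) j) := by
  unfold consMap
  rw [AffineSpace.homOfVector_appTop_coord]
  rfl

omit [NumberField F₀] in
theorem comp_consMap {X Y : Scheme.{0}} {n : ℕ} (a : Y ⟶ X) (ψ : X ⟶ AS F₀ n) (t : Γ(X, ⊤)) :
    a ≫ consMap ψ t = consMap (a ≫ ψ) (a.appTop t) := by
  apply AffineSpace.hom_ext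
  · rw [Category.assoc, consMap_str, consMap_str, Category.assoc]
  · intro i
    rw [Scheme.Hom.comp_appTop, CommRingCat.comp_apply]
    refine Fin.cases ?_ (fun j => ?_) i
    · rw [consMap_zero, consMap_zero]
    · rw [consMap_succ, consMap_succ, Scheme.Hom.comp_appTop, CommRingCat.comp_apply]

omit [NumberField F₀] in
theorem consMap_inj {X : Scheme.{0}} {n : ℕ} {ψ ψ' : X ⟶ AS F₀ n} {t t' : Γ(X, ⊤)}
    (h : consMap ψ t = consMap ψ' t') : ψ = ψ' ∧ t = t' := by
  constructor
  · apply AffineSpace.hom_ext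
    · rw [← consMap_str ψ t, h, consMap_str]
    · intro j
      rw [← consMap_succ ψ t, h, consMap_succ]
  · rw [← consMap_zero ψ t, h, consMap_zero]

/-- the isomorphism of `AL (AS F₀ n)` with `AS F₀ (n + 1)`. -/
def consIso (F₀ : Type) [Field F₀] (n : ℕ) : AL (AS F₀ n) ≅ AS F₀ (n + 1) where
  hom := consMap (pr (AS F₀ n)) (AffineSpace.coord (AS F₀ n) PUnit.unit)
  inv := AffineSpace.homOfVector
    (AffineSpace.homOfVector (asStr F₀ (n + 1)) (fun j => AffineSpace.coord (SpO F₀) j.succ))
    (fun _ => AffineSpace.coord (SpO F₀) 0)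
  hom_inv_id := by
    apply AffineSpace.hom_ext
    · rw [Category.assoc, AffineSpace.homOfVector_over, Category.id_comp]
      apply AffineSpace.hom_ext
      · rw [Category.assoc, AffineSpace.homOfVector_over, consMap_str]
      · intro j
        rw [Scheme.Hom.comp_appTop, CommRingCat.comp_apply, AffineSpace.homOfVector_appTop_coord,
          consMap_succ]
    · intro i
      rw [Scheme.Hom.comp_appTop, CommRingCat.comp_apply, AffineSpace.homOfVector_appTop_coord,
        consMap_zero]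
      simp
  inv_hom_id := by
    rw [comp_consMap, AffineSpace.homOfVector_over, AffineSpace.homOfVector_appTop_coord]
    apply AffineSpace.hom_ext
    · rw [consMap_str, AffineSpace.homOfVector_over, Category.id_comp]
    · intro i
      refine Fin.cases ?_ (fun j => ?_) i
      · rw [consMap_zero]; simp
      · rw [consMap_succ, AffineSpace.homOfVector_appTop_coord]; simp

theorem line_lft [LocallyOfFiniteType π] (O : (AL V).Opens) :
    LocallyOfFiniteType (O.ι ≫ pr V ≫ π) := by
  infer_instance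

theorem line_qc [LocallyOfFiniteType π] [QuasiCompact π] (O : (AL V).Opens) :
    QuasiCompact (O.ι ≫ pr V ≫ π) := by
  have h1 : IsLocallyNoetherian (AL V) := LocallyOfFiniteType.isLocallyNoetherian (pr V ≫ π)
  infer_instance

theorem IsQP.line (h : IsQP π) (O : (AL V).Opens) : IsQP (O.ι ≫ pr V ≫ π) := by
  obtain ⟨sep, lft, qc, m, n, φ, ψ, hφ, hψ, hm⟩ := h
  refine ⟨inferInstance, line_lft O, line_qc O, m, n + 1, O.ι ≫ pr V ≫ φ,
    consMap (O.ι ≫ pr V ≫ ψ) (O.ι.appTop (AffineSpace.coord V PUnit.unit)), ?_, ?_, ?_⟩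
  · rw [Category.assoc, Category.assoc, hφ]
  · rw [consMap_str, Category.assoc, Category.assoc, hψ]
  · intro Z a b h1 h2
    rw [comp_consMap, comp_consMap] at h2
    obtain ⟨h3, h4⟩ := consMap_inj h2
    rw [← cancel_mono O.ι]
    apply AffineSpace.hom_ext
    · apply hm
      · simpa only [Category.assoc] using h1
      · simpa only [Category.assoc] using h3
    · intro i
      rw [Scheme.Hom.comp_appTop, Scheme.Hom.comp_appTop, CommRingCat.comp_apply,
        CommRingCat.comp_apply]
      exact h4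

theorem IsQP.closed (h : IsQP π) (i : V' ⟶ V) [IsClosedImmersion i] : IsQP (i ≫ π) := by
  obtain ⟨sep, lft, qc, m, n, φ, ψ, hφ, hψ, hm⟩ := h
  refine ⟨inferInstance, inferInstance, inferInstance, m, n, i ≫ φ, i ≫ ψ, ?_, ?_, ?_⟩
  · rw [Category.assoc, hφ]
  · rw [Category.assoc, hψ]
  · intro Z a b h1 h2
    rw [← cancel_mono i]
    apply hm
    · simpa only [Category.assoc] using h1
    · simpa only [Category.assoc] using h2

theorem IsQA.line (h : IsQA π) (O : (AL V).Opens) : IsQA (O.ι ≫ pr V ≫ π) := by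
  obtain ⟨n, ψ, hψ, hi⟩ := h
  have h1 : IsImmersion (alMap ψ) :=
    MorphismProperty.of_isPullback (AffineSpace.isPullback_map ψ).flip inferInstance
  refine ⟨n + 1, O.ι ≫ alMap ψ ≫ (consIso F₀ n).hom, ?_, inferInstance⟩
  show (O.ι ≫ alMap ψ ≫ consMap _ _) ≫ _ = _
  rw [Category.assoc, Category.assoc, consMap_str, ← hψ]
  rw [← Category.assoc (alMap ψ), AffineSpace.map_over, Category.assoc]

theorem IsQA.closed (h : IsQA π) (i : V' ⟶ V) [IsClosedImmersion i] : IsQA (i ≫ π) := by
  obtain ⟨n, ψ, hψ, hi⟩ := h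
  exact ⟨n, i ≫ ψ, by rw [Category.assoc, hψ], inferInstance⟩

theorem IsQA.isSeparated (h : IsQA π) : IsSeparated π := by
  obtain ⟨n, ψ, hψ, hi⟩ := h
  rw [← hψ]
  infer_instance

end Pool.Agent.Work.MP_e97a4d_nt.Sep
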