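import Pool.Agent.Work.MP_e97a4d_nt.Sep.IntM
import Pool.Agent.Work.MP_e97a4d_nt.Sep.IntMm
import Pool.Agent.Work.MP_e97a4d_nt.Sep.MoveOps
import Pool.Agent.Work.MP_e97a4d_nt.Sep.MoveA
import Pool.Agent.Work.MP_e97a4d_nt.Sep.MoveP
import Pool.Agent.Work.MP_e97a4d_nt.Sep.QPClass
import Pool.Agent.Work.MP_e97a4d_nt.Sep.OpenA
import Pool.Agent.Work.SUnit.Main

/-!
Elimination of the exceptional closed subscheme in the separated world.
-/

set_option autoImplicit false

noncomputable section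

namespace Pool.Agent.Work.MP_e97a4d_nt.Sep

open AlgebraicGeometry CategoryTheory CategoryTheory.Limits IsDedekindDomain NumberField
open Pool.Agent.Work.MP_e97a4d_nt.Vp

/-- Finiteness for the unit equation (a theorem). -/
theorem uFin : UFin := fun F _ _ S c hc => SUnit.finite_unit_add F S c hc

variable {F₀ : Type} [Field F₀] [NumberField F₀] {V V' : Scheme.{0}}

/-- Quasi-projective schemes have moving families. -/
theorem IsQP.moving {π : V ⟶ SpO F₀} (h : IsQP π) : Nonempty (Moving π) := by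
  obtain ⟨m, n, φ, ψ, hφ, hψ, hmono⟩ := h.mono
  obtain ⟨M₁⟩ := moving_projectiveSpace F₀ uFin m
  obtain ⟨M₂⟩ := moving_affineSpace F₀ uFin n
  exact moving_of_jointly_monic φ ψ hφ hψ hmono M₁ M₂

/-- Quasi-affine schemes have moving families. -/
theorem IsQA.moving {π : V ⟶ SpO F₀} (h : IsQA π) : Nonempty (Moving π) := by
  obtain ⟨n, ψ, hψ, hi⟩ := h.imm
  obtain ⟨M⟩ := moving_affineSpace F₀ uFin n
  have hm : Mono ψ := inferInstance
  exact moving_of_jointly_monic ψ ψ hψ hψ (fun Z a b h _ => (cancel_mono ψ).1 h) M M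

/-- Moving families pull back along monomorphisms. -/
theorem Moving.pullback {π : V ⟶ SpO F₀} (M : Moving π) (i : V' ⟶ V) [Mono i] :
    Nonempty (Moving (i ≫ π)) :=
  moving_of_jointly_monic i i rfl rfl (fun Z a b h _ => (cancel_mono i).1 h) M M

/-- Elimination of `V'` for one pair: a companion with empty exceptional set, open in the affine line
over `V`. -/
theorem exists_companion (π : V ⟶ SpO F₀) [IsSeparated π] (i : V' ⟶ V) [IsClosedImmersion i]
    (M : Nonempty (Moving (i ≫ π))) :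
    ∃ W : (AL V).Opens, (∀ σ : F₀ →+* ℂ, CondI σ π i ↔ NoCurve σ (W.ι ≫ pr V ≫ π)) ∧
      (CondII π i → FinPts (W.ι ≫ pr V ≫ π)) ∧
      (FinPts (W.ι ≫ pr V ≫ π) → ∀ m, CondIIm m π i) := by
  obtain ⟨M⟩ := M
  exact ⟨Wop i M.T, fun σ => condI_iff_noCurve σ π i M, fun h => finPts_of_condII uFin π i M h,
    fun h m => condIIm_of_finPts π i M h m⟩

theorem condI_empty {π : V ⟶ SpO F₀} (σ : F₀ →+* ℂ) (i : V' ⟶ V) [IsEmpty V'] :
    CondI σ π i ↔ NoCurve σ π := by
  constructor
  · intro h f hf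
    obtain ⟨p, -⟩ := h f hf 0
    exact isEmptyElim (p (⊥ : PrimeSpectrum ℂ))
  · intro h f hf
    exact (h f hf).elim

theorem condII_empty {π : V ⟶ SpO F₀} (i : V' ⟶ V) [IsEmpty V'] : CondII π i ↔ FinPts π := by
  have key : ∀ (F : Type) [Field F] [NumberField F] [Algebra F₀ F]
      (S : Finset (HeightOneSpectrum (𝓞 F))),
      {x ∈ integralPoints π F S | ¬ ∃ y : Spec (CommRingCat.of (SInt F S)) ⟶ V', y ≫ i = x} =
        integralPoints π F S := by
    intro F _ _ _ S
    ext x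
    refine ⟨fun h => h.1, fun h => ⟨h, ?_⟩⟩
    rintro ⟨y, -⟩
    exact isEmptyElim (y (⊥ : PrimeSpectrum (SInt F S)))
  constructor
  · intro h F _ _ _ S
    rw [← key F S]; exact h F S
  · intro h F _ _ _ S
    rw [key F S]; exact h F S

theorem condIIm_empty {π : V ⟶ SpO F₀} (i : V' ⟶ V) [IsEmpty V'] (m : ℕ) :
    CondIIm m π i ↔ FinPts π := by
  have key : ∀ (F : Type) [Field F] [NumberField F] [Algebra F₀ F]
      (S : Finset (HeightOneSpectrum (𝓞 F))),
      {x ∈ integralPoints π F S |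
        {p : Spec (CommRingCat.of (SInt F S)) | x p ∈ Set.range i}.encard ≤ m} =
        integralPoints π F S := by
    intro F _ _ _ S
    ext x
    refine ⟨fun h => h.1, fun h => ⟨h, ?_⟩⟩
    have : {p : Spec (CommRingCat.of (SInt F S)) | x p ∈ Set.range i} = ∅ := by
      ext p
      simp only [Set.mem_ofPred_eq, Set.mem_empty_iff_false, iff_false]
      rintro ⟨q, -⟩
      exact isEmptyElim q
    rw [this, Set.encard_empty]
    exact zero_le
  constructor
  · intro h F _ _ _ S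
    rw [← key F S]; exact h F S
  · intro h F _ _ _ S
    rw [key F S]; exact h F S

/-- The empty scheme is quasi-projective. -/
theorem isQP_empty (π : V ⟶ SpO F₀) : IsQP (Scheme.emptyTo V ≫ π) where
  sep := by
    have : IsClosedImmersion (Scheme.emptyTo V ≫ π) := inferInstance
    infer_instance
  lft := by
    have : IsClosedImmersion (Scheme.emptyTo V ≫ π) := inferInstance
    infer_instance
  qc := by
    have : IsClosedImmersion (Scheme.emptyTo V ≫ π) := inferInstance
    infer_instance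
  mono := ⟨0, 0, Scheme.emptyTo _, Scheme.emptyTo _, emptyIsInitial.hom_ext _ _,
    emptyIsInitial.hom_ext _ _, fun Z a b _ _ => by
      have : IsEmpty Z := ⟨fun z => isEmptyElim (a z)⟩
      exact isInitialOfIsEmpty.hom_ext _ _⟩

/-- Elimination of the exceptional closed subscheme inside a class of separated schemes. -/
theorem elimination (σ : F₀ →+* ℂ) (C : ∀ V : Scheme.{0}, (V ⟶ SpO F₀) → Prop)
    (hsep : ∀ (V : Scheme.{0}) (π : V ⟶ SpO F₀), C V π → IsSeparated π)
    (hline : ∀ (V : Scheme.{0}) (π : V ⟶ SpO F₀), C V π →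
      ∀ W : (AL V).Opens, C W (W.ι ≫ pr V ≫ π)) :
    ((∀ (V : Scheme.{0}) (π : V ⟶ SpO F₀), C V π → FinPts π → NoCurve σ π) ↔
      ∀ (V V' : Scheme.{0}) (π : V ⟶ SpO F₀) (i : V' ⟶ V) [IsClosedImmersion i],
        C V π → IsQP (i ≫ π) → CondII π i → CondI σ π i) ∧
    ((∀ (V : Scheme.{0}) (π : V ⟶ SpO F₀), C V π → NoCurve σ π → FinPts π) ↔
      ∀ (V V' : Scheme.{0}) (π : V ⟶ SpO F₀) (i : V' ⟶ V) [IsClosedImmersion i],
        C V π → IsQP (i ≫ π) → CondI σ π i → ∀ m, CondIIm m π i) := by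
  refine ⟨⟨?_, ?_⟩, ⟨?_, ?_⟩⟩
  · intro h V V' π i _ hC hQ hII
    have := hsep V π hC
    obtain ⟨W, h1, h2, -⟩ := exists_companion π i hQ.moving
    exact (h1 σ).2 (h _ _ (hline V π hC W) (h2 hII))
  · intro h V π hC hF
    rw [← condI_empty σ (Scheme.emptyTo V)]
    refine h V ∅ π (Scheme.emptyTo V) hC (isQP_empty π) ?_
    exact (condII_empty _).2 hF
  · intro h V V' π i _ hC hQ hI m
    have := hsep V π hC
    obtain ⟨W, h1, -, h3⟩ := exists_companion π i hQ.moving
    exact h3 (h _ _ (hline V π hC W) ((h1 σ).1 hI)) m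
  · intro h V π hC hN
    rw [← condIIm_empty (Scheme.emptyTo V) 0]
    exact h V ∅ π (Scheme.emptyTo V) hC (isQP_empty π) ((condI_empty σ _).2 hN) 0

end Pool.Agent.Work.MP_e97a4d_nt.Sep
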