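import Pool.Agent.Work.MP_e97a4d_nt.Sep.Holo

/-!
Condition (i) for `(V, V')` is equivalent to the absence of entire curves in `W`.

`→`: let `h` be a non-constant holomorphic map into `W`. Its coordinate `c` omits `0` and `1`
(`mem_unitOpen_iff`), hence is constant (`differentiable_crd`, `Vp.picard_two`). So `f = h ≫ pr V`
is non-constant (`mk_crd`) and lies in `V'` by (i); lift it to `V'` (`holo_lift_closed` for
`i`, followed by `holo_mk`); the lift lies in `T` (definition of `Wop`: `alMap i`
is injective) and in `unitOpen V'`, so it is constant by `M.tame1`: contradiction.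
`←`: let `f` be an entire curve with `f z₀` not in `V'`. The set of `z` with `f z` in `V'` is
countable and for each such `z` at most `M.d` complex numbers `c` are bad (`M.bad`, `k = ℂ`). Choose
`c ≠ 0, 1` outside the countable union. Then `z ↦ mk (f z) c` is a non-constant holomorphic map into
`W`.
-/

set_option autoImplicit false

noncomputable section

namespace Pool.Agent.Work.MP_e97a4d_nt.Sep

open AlgebraicGeometry CategoryTheory CategoryTheory.Limits IsDedekindDomain NumberField
open Pool.Agent.Work.MP_e97a4d_nt.Vp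

variable {F₀ : Type} [Field F₀] {V V' : Scheme.{0}}

/-- A point of `AL V` outside of the line over `V'` with unit coordinates lies in `W`, and a point of
the line over `V'` lies in `W` if and only if it lies in `T`. -/
theorem mem_Wop_iff (i : V' ⟶ V) [IsClosedImmersion i] (T : (AL V').Opens) (w : AL V) :
    w ∈ Wop i T ↔ w ∈ unitOpen V ∧ ∀ w' : AL V', alMap i w' = w → w' ∈ T := by
  have h1 : w ∈ Wop i T ↔ w ∈ unitOpen V ∧ w ∈ (alMap i '' (T : Set (AL V'))ᶜ)ᶜ := Iff.rfl
  rw [h1]
  refine and_congr_right fun _ => ?_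
  simp only [Set.mem_compl_iff, Set.mem_image, SetLike.mem_coe, not_exists, not_and]
  exact ⟨fun h w' hw' => by_contra fun hT => h w' hT hw', fun h w' hT hw' => hT (h w' hw')⟩

theorem condI_iff_noCurve (σ : F₀ →+* ℂ) (π : V ⟶ SpO F₀) (i : V' ⟶ V) [IsClosedImmersion i]
    (M : Moving (i ≫ π)) :
    CondI σ π i ↔ NoCurve σ ((Wop i M.T).ι ≫ pr V ≫ π) := by
  rw [noCurve_opens]
  constructor
  · intro hI h hh hW z₀ w₀
    have hu : ∀ z, crd (h z) ≠ 0 ∧ crd (h z) ≠ 1 := fun z =>
      (mem_unitOpen_iff (h z)).1 ((mem_Wop_iff i M.T _).1 (hW z)).1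
    have hc := picard_two (fun z => crd (h z)) (differentiable_crd hh) 0 1 zero_ne_one hu
    by_contra hne
    have hf : IsHolomorphicMap σ π (fun z => h z ≫ pr V) := holo_comp (pr V) hh
    have hlift := hI (fun z => h z ≫ pr V) ⟨hf, z₀, w₀, fun hzw => hne ?_⟩
    · choose f' hf' using hlift
      have h1 : IsHolomorphicMap σ (i ≫ π) f' := holo_lift_closed i hf f' hf'
      have h2 : IsHolomorphicMap σ (pr V' ≫ i ≫ π) (fun z => mk (f' z) (crd (h z))) :=
        holo_mk h1 _ (differentiable_crd hh)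
      have h3 : ∀ z, mk (f' z) (crd (h z)) ≫ alMap i = h z := by
        intro z
        rw [mk_alMap, hf' z, mk_crd]
      have h4 : ∀ z, pt (mk (f' z) (crd (h z))) ∈ M.T ⊓ unitOpen V' := by
        intro z
        refine ⟨?_, ?_⟩
        · refine ((mem_Wop_iff i M.T _).1 (hW z)).2 _ ?_
          rw [← Scheme.Hom.comp_apply, h3]
        · refine (mem_unitOpen_iff _).2 ?_
          rw [crd_mk]
          exact hu z
      have h5 := M.tame1 σ _ h2 h4 z₀ w₀
      apply hne
      rw [← h3 z₀, ← h3 w₀]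
      exact congrArg (fun x => x ≫ alMap i) h5
    · rw [← mk_crd (h z₀), ← mk_crd (h w₀)]
      have h6 : crd (h z₀) = crd (h w₀) := hc z₀ w₀
      have h7 : h z₀ ≫ pr V = h w₀ ≫ pr V := hzw
      rw [h6, h7]
  · intro hT f hf
    by_contra hcon
    push Not at hcon
    have hne : ∃ z, ¬ ∃ p : Spec (CommRingCat.of ℂ) ⟶ V', p ≫ i = f z := by
      obtain ⟨z, hz⟩ := hcon
      exact ⟨z, fun ⟨p, hp⟩ => hz p hp⟩
    have hcount := countable_crossing i hf.1 hne
    set s := {z : ℂ | ∃ p : Spec (CommRingCat.of ℂ) ⟶ V', p ≫ i = f z} with hs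
    have hbad : ∀ z ∈ s, {c : ℂ | ∃ p : Spec (CommRingCat.of ℂ) ⟶ V', p ≫ i = f z ∧
        mk p c (⊥ : PrimeSpectrum ℂ) ∉ M.T}.Countable := by
      rintro z ⟨p, hp⟩
      have h1 := M.bad ℂ p (by exact_mod_cast M.hN₀)
      have h2 : {c : ℂ | mk p c (⊥ : PrimeSpectrum ℂ) ∉ M.T}.Finite := by
        rw [← Set.encard_lt_top_iff]
        exact lt_of_le_of_lt h1 (by exact_mod_cast WithTop.coe_lt_top _)
      refine (h2.subset ?_).countable
      rintro c ⟨p', hp', hc⟩
      have h3 : p' = p := by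
        rw [← cancel_mono i, hp', hp]
      rw [h3] at hc
      exact hc
    have hall : (({0, 1} : Set ℂ) ∪ ⋃ z ∈ s, {c : ℂ | ∃ p : Spec (CommRingCat.of ℂ) ⟶ V',
        p ≫ i = f z ∧ mk p c (⊥ : PrimeSpectrum ℂ) ∉ M.T}).Countable :=
      (Set.toFinite _).countable.union (hcount.biUnion hbad)
    obtain ⟨c, hc⟩ : ∃ c : ℂ, c ∉ (({0, 1} : Set ℂ) ∪ ⋃ z ∈ s,
        {c : ℂ | ∃ p : Spec (CommRingCat.of ℂ) ⟶ V',
        p ≫ i = f z ∧ mk p c (⊥ : PrimeSpectrum ℂ) ∉ M.T}) := by
      by_contra hcc
      push Not at hcc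
      exact not_countable_complex
        (hall.mono fun c _ => hcc c)
    have hc0 : c ≠ 0 := fun h => hc (Or.inl (by simp [h]))
    have hc1 : c ≠ 1 := fun h => hc (Or.inl (by simp [h]))
    obtain ⟨hfh, z₀, w₀, hzw⟩ := hf
    apply hzw
    have h1 : IsHolomorphicMap σ (pr V ≫ π) (fun z => mk (f z) c) :=
      holo_mk hfh _ (differentiable_const c)
    have h2 := hT _ h1 ?_ z₀ w₀
    · exact (mk_injective h2).1
    · intro z
      rw [mem_Wop_iff]
      refine ⟨?_, ?_⟩
      · refine (mem_unitOpen_iff _).2 ?_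
        rw [crd_mk]
        exact ⟨hc0, hc1⟩
      · intro w' hw'
        have hal : IsClosedImmersion (alMap i) :=
          MorphismProperty.of_isPullback (AffineSpace.isPullback_map i).flip inferInstance
        obtain ⟨q, hq⟩ := (factors_iff_mem_range (alMap i) (mk (f z) c)).2 ⟨w', hw'⟩
        have h3 : (q ≫ pr V') ≫ i = f z := by
          have h4 : (q ≫ alMap i) ≫ pr V = f z := by rw [hq, mk_pr]
          rw [← h4, Category.assoc, Category.assoc, AffineSpace.map_over]
        have h5 : crd q = c := by rw [← crd_alMap i, hq, crd_mk]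
        have h6 : q = mk (q ≫ pr V') c := by
          conv_lhs => rw [← mk_crd q]
          rw [h5]
        have h7 : mk (q ≫ pr V') c (⊥ : PrimeSpectrum ℂ) = w' := by
          rw [← h6]
          apply (alMap i).isClosedEmbedding.injective
          rw [hw', ← Scheme.Hom.comp_apply, hq]
        by_contra hw'T
        apply hc
        right
        refine Set.mem_iUnion₂.2 ⟨z, ⟨q ≫ pr V', h3⟩, q ≫ pr V', h3, ?_⟩
        rw [h7]
        exact hw'T

end Pool.Agent.Work.MP_e97a4d_nt.Sep
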