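import Pool.Agent.Work.MP_e97a4d_nt.Sep.Line

/-!
Holomorphic maps into the affine line over `V`, into closed subschemes and into open subschemes.
`holo_mk`: if `Spec A → V` is a chart of `f` with evaluation `g`, we use the chart
`Spec A[t] → AL V` (the pullback of an open immersion; `AffineSpace.map` of an open immersion and
`AffineSpace.SpecIso`) with the evaluation extending `g` by `t ↦ c`.
`countable_crossing`: the set is discrete and closed (`eventually_not_mem`), hence countable.
-/

set_option autoImplicit false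

noncomputable section

namespace Pool.Agent.Work.MP_e97a4d_nt.Sep

open AlgebraicGeometry CategoryTheory CategoryTheory.Limits IsDedekindDomain NumberField
open Pool.Agent.Work.MP_e97a4d_nt.Vp

variable {F₀ : Type} [Field F₀] {σ : F₀ →+* ℂ} {V V' : Scheme.{0}} {π : V ⟶ SpO F₀}

theorem differentiable_crd {h : ℂ → (Spec (CommRingCat.of ℂ) ⟶ AL V)}
    (hh : IsHolomorphicMap σ (pr V ≫ π) h) : Differentiable ℂ (fun z => crd (h z)) := by
  intro z
  obtain ⟨A, j, g, D, hj, hD, hz, hfg, hhol⟩ := hh.holo z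
  have h1 : ∀ w ∈ D, crd (h w) = g w (crd (R := A) j) := by
    intro w hw
    rw [hfg w hw]
    exact crd_comp (g w) j
  exact ((hhol (crd (R := A) j)).congr h1).differentiableAt (hD.mem_nhds hz)

theorem holo_mk {f : ℂ → (Spec (CommRingCat.of ℂ) ⟶ V)} (hf : IsHolomorphicMap σ π f)
    (c : ℂ → ℂ) (hc : Differentiable ℂ c) :
    IsHolomorphicMap σ (pr V ≫ π) (fun z => mk (f z) (c z)) where
  structural z := by
    rw [← Category.assoc, mk_pr]
    exact hf.structural z
  holo z := by
    obtain ⟨A, j, g, D, hj, hD, hz, hfg, hhol⟩ := hf.holo z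
    let g' : ℂ → (MvPolynomial PUnit.{1} A →+* ℂ) := fun w =>
      MvPolynomial.eval₂Hom (g w) (fun _ => c w)
    let J : Spec (CommRingCat.of (MvPolynomial PUnit.{1} A)) ⟶ AL V :=
      (AffineSpace.SpecIso PUnit.{1} A).inv ≫ AffineSpace.map PUnit.{1} j
    have hJo : IsOpenImmersion (AffineSpace.map PUnit.{1} j) :=
      MorphismProperty.of_isPullback (AffineSpace.isPullback_map j).flip hj
    refine ⟨CommRingCat.of (MvPolynomial PUnit.{1} A), J, g', D, inferInstance, hD, hz, ?_, ?_⟩
    · intro w hw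
      have h1 : Spec.map (CommRingCat.ofHom (g' w)) ≫ J =
          mk ((Spec.map (CommRingCat.ofHom (g' w)) ≫ J) ≫ pr V)
            (crd (Spec.map (CommRingCat.ofHom (g' w)) ≫ J)) := (mk_crd _).symm
      have h2 : (Spec.map (CommRingCat.ofHom (g' w)) ≫ J) ≫ pr V = f w := by
        rw [hfg w hw]
        simp only [J, Category.assoc, AffineSpace.map_over, AffineSpace.SpecIso_inv_over_assoc]
        rw [← Category.assoc, ← Spec.map_comp, ← CommRingCat.ofHom_comp]
        congr 3
        ext a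
        simp [g']
      have h3 : crd (Spec.map (CommRingCat.ofHom (g' w)) ≫ J) = c w := by
        have h4 : crd (Spec.map (CommRingCat.ofHom (g' w)) ≫ J) = g' w (crd J) := crd_comp _ _
        have h5 : crd J = MvPolynomial.X PUnit.unit := by
          have h6 : crd J = crd (AffineSpace.SpecIso PUnit.{1} A).inv := crd_alMap _ _
          rw [h6]
          unfold crd
          rw [AffineSpace.SpecIso_inv_appTop_coord]
          simp
        rw [h4, h5]
        simp [g']
      rw [h1, h2, h3]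
    · intro p
      show DifferentiableOn ℂ (fun w => MvPolynomial.eval₂Hom (g w) (fun _ => c w) p) D
      induction p using MvPolynomial.induction_on with
      | C a => simpa using hhol a
      | add p q hp hq =>
        simp only [map_add]
        exact hp.add hq
      | mul_X p n hp =>
        simp only [map_mul]
        refine hp.mul ?_
        simpa using hc.differentiableOn

theorem holo_lift_closed (i : V' ⟶ V) [IsClosedImmersion i]
    {f : ℂ → (Spec (CommRingCat.of ℂ) ⟶ V)} (hf : IsHolomorphicMap σ π f)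
    (f' : ℂ → (Spec (CommRingCat.of ℂ) ⟶ V')) (h : ∀ z, f' z ≫ i = f z) :
    IsHolomorphicMap σ (i ≫ π) f' where
  structural z := by
    rw [← Category.assoc, h]
    exact hf.structural z
  holo z := by
    classical
    obtain ⟨A, j, g, D, hj, hD, hz, hfg, hhol⟩ := hf.holo z
    have hcl : IsClosedImmersion (pullback.snd i j) := inferInstance
    obtain ⟨I, e, he⟩ := IsClosedImmersion.Spec_iff.1 hcl
    have hl : ∀ w ∈ D, f' w ≫ i = Spec.map (CommRingCat.ofHom (g w)) ≫ j := fun w hw => by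
      rw [h, hfg w hw]
    have key : ∀ w ∈ D, ∃ θ : (A ⧸ I) →+* ℂ,
        f' w = Spec.map (CommRingCat.ofHom θ) ≫ e.inv ≫ pullback.fst i j ∧
        ∀ a, θ (Ideal.Quotient.mk I a) = g w a := by
      intro w hw
      let l := pullback.lift (f' w) (Spec.map (CommRingCat.ofHom (g w))) (hl w hw)
      obtain ⟨θ, hθ⟩ := Spec.map_surjective (l ≫ e.hom)
      refine ⟨θ.hom, ?_, ?_⟩
      · have h1 : Spec.map (CommRingCat.ofHom θ.hom) = l ≫ e.hom := by
          rw [← hθ]
          rfl
        rw [h1, Category.assoc, Iso.hom_inv_id_assoc]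
        exact (pullback.lift_fst _ _ _).symm
      · intro a
        have h2 : l ≫ pullback.snd i j = Spec.map (CommRingCat.ofHom (g w)) :=
          pullback.lift_snd _ _ _
        rw [he, ← Category.assoc, ← hθ, ← Spec.map_comp] at h2
        have h3 := Spec.map_injective h2
        have h4 := congrArg CommRingCat.Hom.hom h3
        have h5 := RingHom.congr_fun h4 a
        simpa using h5
    have hne : Nonempty ((A ⧸ I) →+* ℂ) := ⟨(key z hz).choose⟩
    choose! θ hθ1 hθ2 using key
    refine ⟨CommRingCat.of (A ⧸ I), e.inv ≫ pullback.fst i j, θ, D, inferInstance, hD, hz,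
      hθ1, ?_⟩
    intro b
    obtain ⟨a, rfl⟩ := Ideal.Quotient.mk_surjective b
    exact (hhol a).congr fun w hw => hθ2 w hw a

theorem mem_opens_of_lift (O : V.Opens) (h : Spec (CommRingCat.of ℂ) ⟶ O.toScheme) :
    pt (h ≫ O.ι) ∈ O := by
  have h1 : pt (h ≫ O.ι) ∈ Set.range O.ι := ⟨h (⊥ : PrimeSpectrum ℂ), by
    rw [← Scheme.Hom.comp_apply]⟩
  rw [Scheme.Opens.range_ι] at h1
  exact h1

theorem holo_lift_opens (O : V.Opens) {f : ℂ → (Spec (CommRingCat.of ℂ) ⟶ V)}
    (hf : IsHolomorphicMap σ π f) (f' : ℂ → (Spec (CommRingCat.of ℂ) ⟶ O.toScheme))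
    (h : ∀ z, f' z ≫ O.ι = f z) : IsHolomorphicMap σ (O.ι ≫ π) f' where
  structural z := by
    rw [← Category.assoc, h]
    exact hf.structural z
  holo z := by
    obtain ⟨A, j, g, D, hj, hD, hz, hfg, hhol, hr⟩ := exists_chart_in hf z O
      (by rw [← h z]; exact mem_opens_of_lift O _)
    have hr' : Set.range j ⊆ Set.range O.ι := by
      rw [Scheme.Opens.range_ι]
      exact hr
    let j' : Spec A ⟶ O.toScheme := IsOpenImmersion.lift O.ι j hr'
    have hj' : j' ≫ O.ι = j := IsOpenImmersion.lift_fac _ _ _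
    have hjo : IsOpenImmersion j' := by
      have h1 : IsOpenImmersion (j' ≫ O.ι) := by rw [hj']; exact hj
      exact IsOpenImmersion.of_comp j' O.ι
    refine ⟨A, j', g, D, hjo, hD, hz, ?_, hhol⟩
    intro w hw
    rw [← cancel_mono O.ι, h w, Category.assoc, hj', hfg w hw]

theorem noCurve_opens (O : V.Opens) : NoCurve σ (O.ι ≫ π) ↔ Tame1 σ π O := by
  constructor
  · intro hN f hf hO z w
    have hr : ∀ z, Set.range (f z) ⊆ Set.range O.ι := by
      intro z
      rw [Scheme.Opens.range_ι, range_eq]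
      rintro _ rfl
      exact hO z
    let f' : ℂ → (Spec (CommRingCat.of ℂ) ⟶ O.toScheme) := fun z =>
      IsOpenImmersion.lift O.ι (f z) (hr z)
    have hf' : ∀ z, f' z ≫ O.ι = f z := fun z => IsOpenImmersion.lift_fac _ _ _
    have h1 : IsHolomorphicMap σ (O.ι ≫ π) f' := holo_lift_opens O hf f' hf'
    by_contra hne
    refine hN f' ⟨h1, z, w, fun h => hne ?_⟩
    rw [← hf' z, ← hf' w, h]
  · rintro hT f' ⟨hf', z, w, hne⟩
    apply hne
    rw [← cancel_mono O.ι]
    exact hT (fun z => f' z ≫ O.ι) (holo_comp O.ι hf') (fun z => mem_opens_of_lift O _) z w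

theorem finPts_opens (O : V.Opens) : FinPts (O.ι ≫ π) ↔ Tame2 π O := by
  constructor
  · intro h F _ _ _ S
    have h1 := (h F S).image (fun x => x ≫ O.ι)
    refine h1.subset ?_
    rintro x ⟨hx, hO⟩
    have hr : Set.range x ⊆ Set.range O.ι := by
      rw [Scheme.Opens.range_ι]
      exact hO
    refine ⟨IsOpenImmersion.lift O.ι x hr, ?_, IsOpenImmersion.lift_fac _ _ _⟩
    show IsOpenImmersion.lift O.ι x hr ≫ O.ι ≫ π = _
    rw [← Category.assoc, IsOpenImmersion.lift_fac]
    exact hx
  · intro h F _ _ _ S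
    refine Set.Finite.of_finite_image (f := fun x => x ≫ O.ι) ((h F S).subset ?_) ?_
    · rintro _ ⟨x, hx, rfl⟩
      refine ⟨?_, ?_⟩
      · show (x ≫ O.ι) ≫ π = _
        rw [Category.assoc]
        exact hx
      · rintro _ ⟨y, rfl⟩
        have h1 : (x ≫ O.ι) y ∈ Set.range O.ι := ⟨x y, by rw [← Scheme.Hom.comp_apply]⟩
        rw [Scheme.Opens.range_ι] at h1
        exact h1
    · intro x _ y _ hxy
      exact (cancel_mono O.ι).1 hxy

theorem countable_crossing (i : V' ⟶ V) [IsClosedImmersion i]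
    {f : ℂ → (Spec (CommRingCat.of ℂ) ⟶ V)} (hf : IsHolomorphicMap σ π f)
    (hne : ∃ z, ¬ ∃ p : Spec (CommRingCat.of ℂ) ⟶ V', p ≫ i = f z) :
    {z : ℂ | ∃ p : Spec (CommRingCat.of ℂ) ⟶ V', p ≫ i = f z}.Countable := by
  set s := {z : ℂ | ∃ p : Spec (CommRingCat.of ℂ) ⟶ V', p ≫ i = f z} with hs
  have h1 : ∀ z, ∀ᶠ w in nhdsWithin z {z}ᶜ, w ∉ s := fun z => eventually_not_mem π i f hf hne z
  have h2 : s ⊆ ⋃ z : ℂ, s := fun x hx => Set.mem_iUnion.2 ⟨x, hx⟩
  have h3 : ∀ z : ℂ, ∃ U : Set ℂ, U ∈ nhds z ∧ (U ∩ s).Countable := by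
    intro z
    have h4 := h1 z
    rw [eventually_nhdsWithin_iff] at h4
    refine ⟨_, h4, ?_⟩
    refine (Set.countable_singleton z).mono ?_
    rintro w ⟨hw, hws⟩
    by_contra hwz
    exact hw hwz hws
  choose U hU hUc using h3
  obtain ⟨t, ht, htU⟩ := TopologicalSpace.countable_cover_nhds hU
  have h5 : s = ⋃ z ∈ t, (U z ∩ s) := by
    ext x
    constructor
    · intro hx
      have hxu : x ∈ ⋃ z ∈ t, U z := by rw [htU]; trivial
      obtain ⟨z, hz, hxz⟩ := Set.mem_iUnion₂.1 hxu
      exact Set.mem_iUnion₂.2 ⟨z, hz, hxz, hx⟩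
    · intro hx
      obtain ⟨z, hz, hxz⟩ := Set.mem_iUnion₂.1 hx
      exact hxz.2
  rw [h5]
  exact ht.biUnion fun z _ => hUc z

end Pool.Agent.Work.MP_e97a4d_nt.Sep
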