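import Pool.Agent.Work.MP_e97a4d_nt.Sep.CurveM

/-!
Integral points of `W`.

`finPts_of_condII`: by `finPts_opens` we show that `W` is `Tame2`. Let `w : Spec O_S → AL V` have range
in `W`. Its coordinate `c` and `c - 1` are units (`range_unitOpen_iff`), so there are finitely many
`c` (`hU` with the constant `-1`). If `w ≫ pr V` does not factor through `V'` there are finitely many
`w ≫ pr V` by (ii), and `w = mk (w ≫ pr V) c`. If `w ≫ pr V = y ≫ i`, then `mk y c` has range in
`M.T ⊓ unitOpen V'`, and `M.tame2` applies.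

`condIIm_of_finPts`: fix `F`, `S`, `m`. Let `c_j = j + 2`, `j = 0, ..., m * d` (integers), and let
`S'` be `S` together with all places at which one of the nonzero integers `N₀`, `c_j`, `c_j - 1`,
`c_j - c_l` (`j ≠ l`) is not a unit (a finite set). For `x ∈ V(O_S)` with at most `m` points in `V'`
let `x'` be the restriction to `Spec O_{S'}`; it has at most `m` points `p` in `V'` as
`Spec O_{S'} → Spec O_S` is injective (localization). For every such `p`, at most `d` of the residues
of the `c_j` are bad (`M.bad` for the residue field of `p`, the residues being distinct), so some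
`c_j` is good for all of them; then `mk x' c_j` has range in `W` (`mem_Wop_iff`,
`apply_eq_residue`). The map `x ↦ mk x' c_j` is injective, as `V` is separated and
`O_S → O_{S'}` is injective (`exists_ideal_eq`).
-/

set_option autoImplicit false

noncomputable section

namespace Pool.Agent.Work.MP_e97a4d_nt.Sep

open AlgebraicGeometry CategoryTheory CategoryTheory.Limits IsDedekindDomain NumberField
open Pool.Agent.Work.MP_e97a4d_nt.Vp

variable {F₀ : Type} [Field F₀] [NumberField F₀] {V V' : Scheme.{0}}

theorem finPts_of_condII (hU : UFin) (π : V ⟶ SpO F₀) (i : V' ⟶ V) [IsClosedImmersion i]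
    (M : Moving (i ≫ π)) (h : CondII π i) : FinPts ((Wop i M.T).ι ≫ pr V ≫ π) := by
  rw [finPts_opens]
  intro F _ _ _ S
  have hC := hU F S (-1) (by norm_num)
  have hE := h F S
  have hG := M.tame2 F S
  have hfin := (Set.Finite.image2 (fun x c => mk x c) hE hC).union
    (hG.image (fun w => w ≫ alMap i))
  refine hfin.subset ?_
  rintro w ⟨hw, hwW⟩
  have hu : IsUnit (crd w) ∧ IsUnit (crd w - 1) := by
    rw [← range_unitOpen_iff]
    intro v hv
    exact ((mem_Wop_iff i M.T v).1 (hwW hv)).1
  have hcC : crd w ∈ {t : SInt F S | IsUnit t ∧ IsUnit (t + ((-1 : ℤ) : SInt F S))} := by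
    refine ⟨hu.1, ?_⟩
    have e : crd w + ((-1 : ℤ) : SInt F S) = crd w - 1 := by push_cast; ring
    rw [e]
    exact hu.2
  have hx : w ≫ pr V ∈ integralPoints π F S := by
    show (w ≫ pr V) ≫ π = _
    rw [Category.assoc]
    exact hw
  by_cases hy : ∃ y : Spec (CommRingCat.of (SInt F S)) ⟶ V', y ≫ i = w ≫ pr V
  · right
    obtain ⟨y, hy⟩ := hy
    have hw' : mk y (crd w) ≫ alMap i = w := by rw [mk_alMap, hy, mk_crd]
    refine ⟨mk y (crd w), ⟨?_, ?_⟩, hw'⟩
    · show mk y (crd w) ≫ pr V' ≫ i ≫ π = _
      rw [mk_pr_assoc, ← Category.assoc, hy, Category.assoc]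
      exact hw
    · have h1 : Set.range (mk y (crd w)) ⊆ unitOpen V' := by
        rw [range_unitOpen_iff, crd_mk]
        exact hu
      intro v hv
      refine ⟨?_, h1 hv⟩
      obtain ⟨p, rfl⟩ := hv
      have h2 : w p ∈ Wop i M.T := hwW ⟨p, rfl⟩
      refine ((mem_Wop_iff i M.T _).1 h2).2 _ ?_
      have e := Scheme.Hom.comp_apply (mk y (crd w)) (alMap i) p
      rw [hw'] at e
      exact e.symm
  · left
    exact ⟨w ≫ pr V, ⟨hx, hy⟩, crd w, hcC, mk_crd w⟩

end Pool.Agent.Work.MP_e97a4d_nt.Sep
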