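import Pool.Agent.Work.MP_e97a4d_nt.Sep.Defs

/-!
Points of the affine line over a scheme. Everything follows from the API of `AffineSpace`
(`homOfVector_over`, `homOfVector_appTop_coord`, `hom_ext`, `comp_homOfVector`, `map_over`, ...),
`Scheme.ΓSpecIso_naturality` and (for `range_unitOpen_iff`) `Scheme.preimage_basicOpen`,
`Scheme.basicOpen_eq_of_affine`, `PrimeSpectrum.basicOpen_eq_top_iff`-type lemmas.
-/

set_option autoImplicit false

noncomputable section

namespace Pool.Agent.Work.MP_e97a4d_nt.Sep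

open AlgebraicGeometry CategoryTheory CategoryTheory.Limits IsDedekindDomain NumberField
open Pool.Agent.Work.MP_e97a4d_nt.Vp

variable {V V' : Scheme.{0}} {R R' : Type} [CommRing R] [CommRing R']

@[reassoc (attr := simp)]
theorem mk_pr (x : Spec (CommRingCat.of R) ⟶ V) (c : R) : mk x c ≫ pr V = x :=
  AffineSpace.homOfVector_over _ _

@[simp]
theorem crd_mk (x : Spec (CommRingCat.of R) ⟶ V) (c : R) : crd (mk x c) = c := by
  unfold crd mk
  rw [AffineSpace.homOfVector_appTop_coord]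
  exact Iso.inv_hom_id_apply (Scheme.ΓSpecIso (CommRingCat.of R)) c

theorem mk_crd (w : Spec (CommRingCat.of R) ⟶ AL V) : mk (w ≫ pr V) (crd w) = w := by
  unfold crd mk
  apply AffineSpace.hom_ext
  · exact AffineSpace.homOfVector_over _ _
  · intro i
    rw [AffineSpace.homOfVector_appTop_coord]
    exact Iso.hom_inv_id_apply (Scheme.ΓSpecIso (CommRingCat.of R)) _

theorem mk_injective {x y : Spec (CommRingCat.of R) ⟶ V} {c e : R} (h : mk x c = mk y e) :
    x = y ∧ c = e :=
  ⟨by rw [← mk_pr x c, h, mk_pr], by rw [← crd_mk x c, h, crd_mk]⟩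

theorem crd_comp (φ : R →+* R') (w : Spec (CommRingCat.of R) ⟶ AL V) :
    crd (Spec.map (CommRingCat.ofHom φ) ≫ w) = φ (crd w) := by
  unfold crd
  rw [Scheme.Hom.comp_appTop, CommRingCat.comp_apply]
  have h := Scheme.ΓSpecIso_naturality (CommRingCat.ofHom φ)
  exact congrArg (fun f => f.hom (w.appTop (AffineSpace.coord V PUnit.unit))) h

theorem comp_mk (φ : R →+* R') (x : Spec (CommRingCat.of R) ⟶ V) (c : R) :
    Spec.map (CommRingCat.ofHom φ) ≫ mk x c = mk (Spec.map (CommRingCat.ofHom φ) ≫ x) (φ c) := by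
  rw [← mk_crd (Spec.map (CommRingCat.ofHom φ) ≫ mk x c), crd_comp, crd_mk, Category.assoc, mk_pr]

theorem crd_alMap (i : V' ⟶ V) (w : Spec (CommRingCat.of R) ⟶ AL V') :
    crd (w ≫ alMap i) = crd w := by
  unfold crd
  rw [Scheme.Hom.comp_appTop, CommRingCat.comp_apply, AffineSpace.map_appTop_coord]

theorem mk_alMap (i : V' ⟶ V) (x : Spec (CommRingCat.of R) ⟶ V') (c : R) :
    mk x c ≫ alMap i = mk (x ≫ i) c := by
  rw [← mk_crd (mk x c ≫ alMap i), crd_alMap, crd_mk, Category.assoc, AffineSpace.map_over,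
    mk_pr_assoc]

theorem range_unitOpen_iff (w : Spec (CommRingCat.of R) ⟶ AL V) :
    Set.range w ⊆ unitOpen V ↔ IsUnit (crd w) ∧ IsUnit (crd w - 1) := by
  have h1 : w ⁻¹ᵁ (unitOpen V) = PrimeSpectrum.basicOpen (crd w * (crd w - 1)) := by
    unfold unitOpen
    rw [Scheme.preimage_basicOpen_top, basicOpen_eq_of_affine']
    unfold crd
    simp
  have h2 : Set.range w ⊆ unitOpen V ↔ w ⁻¹ᵁ (unitOpen V) = ⊤ := by
    constructor
    · intro h
      ext p
      exact ⟨fun _ => trivial, fun _ => h ⟨p, rfl⟩⟩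
    · rintro h _ ⟨p, rfl⟩
      have : p ∈ w ⁻¹ᵁ (unitOpen V) := by rw [h]; trivial
      exact this
  rw [h2, h1, ← IsUnit.mul_iff]
  constructor
  · intro h
    by_contra hn
    obtain ⟨M, hM, hM'⟩ := exists_max_ideal_of_mem_nonunits hn
    have h3 : (⟨M, hM.isPrime⟩ : PrimeSpectrum R) ∈
        PrimeSpectrum.basicOpen (crd w * (crd w - 1)) := by rw [h]; trivial
    exact h3 hM'
  · intro h
    ext p
    refine ⟨fun _ => trivial, fun _ hp => ?_⟩
    exact p.2.ne_top (Ideal.eq_top_of_isUnit_mem _ hp h)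

theorem mem_unitOpen_iff {k : Type} [Field k] (w : Spec (CommRingCat.of k) ⟶ AL V) :
    w (⊥ : PrimeSpectrum k) ∈ unitOpen V ↔ crd w ≠ 0 ∧ crd w ≠ 1 := by
  have h := range_unitOpen_iff w
  rw [isUnit_iff_ne_zero, isUnit_iff_ne_zero, sub_ne_zero] at h
  rw [← h]
  constructor
  · rintro h0 _ ⟨p, rfl⟩
    have hp : p = (⊥ : PrimeSpectrum k) := Subsingleton.elim _ _
    rw [hp]; exact h0
  · intro h0
    exact h0 ⟨_, rfl⟩

/-- the value of a morphism at the point `p` of `Spec R`, as a point with values in the residue field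
of `p`. -/
theorem apply_eq_residue {X : Scheme.{0}} (w : Spec (CommRingCat.of R) ⟶ X) (p : PrimeSpectrum R) :
    w p = (Spec.map (CommRingCat.ofHom (algebraMap R p.asIdeal.ResidueField)) ≫ w)
      (⊥ : PrimeSpectrum p.asIdeal.ResidueField) := by
  rw [Scheme.Hom.comp_apply]
  congr 1
  apply PrimeSpectrum.ext
  change p.asIdeal = Ideal.comap (algebraMap R p.asIdeal.ResidueField) ⊥
  rw [← RingHom.ker_eq_comap_bot, Ideal.ker_algebraMap_residueField]

end Pool.Agent.Work.MP_e97a4d_nt.Sep
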